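import Pool.Agent.H91.CS.MLAN

/-!
# Module LAN3: Landau's theorem for three moving omitted values, homogeneous coordinates

PROOF. `L i z = β i z * R z - α i z * S z` (no zeros), `D i j z = α i z * β j z - α j z * β i z` (no zeros for `i ≠ j`). Identity: `L 0 * D 1 2 + L 1 * D 2 0 + L 2 * D 0 1 = 0` (`ring`). `h z = - (L 0 z * D 1 2 z) / (L 2 z * D 0 1 z)`, differentiable on `ball x r`, `h ≠ 0`, and `h = 1` would give `L 0 * D 1 2 + L 2 * D 0 1 = 0`, so `L 1 * D 2 0 = 0`: impossible. `landau` for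
`z ↦ h (x + r z)`: `r * ‖deriv h x‖ ≤ CL * (1 + ‖h x‖ ^ 2)`. With `κ = - D 1 2 / D 0 1` (holomorphic, `κ x ≠ 0`), `h = κ * L 0 / L 2`: `deriv h * L 2 ^ 2 = κ' * L 0 * L 2 + κ * (L 0' * L 2 - L 0 * L 2')` at `x`, and `L i' = β i R' - α i S' + (β i' R - α i' S)`,
`(β 0 R' - α 0 S') L 2 - L 0 (β 2 R' - α 2 S') = D 0 2 * (R' S - R S')` (`ring`). So `‖D 0 2‖ ‖κ‖ ‖R' S - R S'‖ ≤ ‖L 2‖ ^ 2 ‖h'‖ + ‖κ'‖ ‖L 0‖ ‖L 2‖ + ‖κ‖ (‖β 0' R - α 0' S‖ ‖L 2‖ + ‖L 0‖ ‖β 2' R - α 2' S‖)` at `x`, all `‖L i‖`, `‖β i' R - α i' S‖` are at most `A * (‖R x‖ + ‖S x‖)` with `A` depending only on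
`α, β` and their derivatives at `x`, `‖L 2‖ ^ 2 (1 + ‖h‖ ^ 2) = ‖L 2‖ ^ 2 + ‖κ‖ ^ 2 ‖L 0‖ ^ 2`, and `(‖R‖ + ‖S‖) ^ 2 ≤ 2 (‖R‖ ^ 2 + ‖S‖ ^ 2)`. Divide by `‖D 0 2 x‖ ‖κ x‖ > 0`. Compare H91/CS/MNEAR.
-/

set_option autoImplicit false

open Metric Set Filter Topology

namespace Pool.Agent.H84.TE

open Pool.Agent.H91.CS

/-- the estimate at the point -/
private theorem lan_est {a0 a2 b0 b2 a0' a2' b0' b2' R S R' S' κ κ' h h' : ℂ} {CL r A : ℝ} (hr : 0 < r) (hCL : 0 < CL)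
    (hA0 : ‖a0‖ + ‖b0‖ ≤ A) (hA2 : ‖a2‖ + ‖b2‖ ≤ A) (hA0' : ‖a0'‖ + ‖b0'‖ ≤ A) (hA2' : ‖a2'‖ + ‖b2'‖ ≤ A)
    (hκ : κ ≠ 0) (hD : a0 * b2 - a2 * b0 ≠ 0) (hh : h * (b2 * R - a2 * S) = κ * (b0 * R - a0 * S))
    (hh' : r * ‖h'‖ ≤ CL * (1 + ‖h‖ ^ 2))
    (hd : h' * (b2 * R - a2 * S) ^ 2 = (κ' * (b0 * R - a0 * S) + κ * ((b0' * R + b0 * R') - (a0' * S + a0 * S'))) *
      (b2 * R - a2 * S) - κ * (b0 * R - a0 * S) * ((b2' * R + b2 * R') - (a2' * S + a2 * S'))) :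
    ‖R' * S - R * S'‖ ≤ 2 * ((CL / r) * (1 + ‖κ‖ ^ 2) * A ^ 2 + ‖κ'‖ * A ^ 2 + 2 * ‖κ‖ * A ^ 2) /
      (‖κ‖ * ‖a0 * b2 - a2 * b0‖) * (‖R‖ ^ 2 + ‖S‖ ^ 2) := by
  have hA : 0 ≤ A := le_trans (by positivity) hA0
  obtain ⟨T, hT⟩ : ∃ T : ℝ, T = ‖R‖ + ‖S‖ := ⟨_, rfl⟩
  have hT0 : 0 ≤ T := by rw [hT]; positivity
  have hlin : ∀ u v : ℂ, ‖u‖ + ‖v‖ ≤ A → ‖v * R - u * S‖ ≤ A * T := by
    intro u v huv
    refine (norm_sub_le _ _).trans ?_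
    rw [norm_mul, norm_mul, hT]
    nlinarith [norm_nonneg u, norm_nonneg v, norm_nonneg R, norm_nonneg S, mul_nonneg (norm_nonneg u) (norm_nonneg R),
      mul_nonneg (norm_nonneg v) (norm_nonneg S)]
  have hL0 := hlin a0 b0 hA0
  have hL2 := hlin a2 b2 hA2
  have hE0 := hlin a0' b0' hA0'
  have hE2 := hlin a2' b2' hA2'
  have key : κ * (a0 * b2 - a2 * b0) * (R' * S - R * S') = h' * (b2 * R - a2 * S) ^ 2 -
      κ' * (b0 * R - a0 * S) * (b2 * R - a2 * S) -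
      κ * ((b0' * R - a0' * S) * (b2 * R - a2 * S) - (b0 * R - a0 * S) * (b2' * R - a2' * S)) := by
    rw [hd]
    ring
  generalize b2 * R - a2 * S = L2 at *
  generalize b0 * R - a0 * S = L0 at *
  generalize b0' * R - a0' * S = E0 at *
  generalize b2' * R - a2' * S = E2 at *
  have h1 : ‖h'‖ * ‖L2‖ ^ 2 ≤ (CL / r) * (1 + ‖κ‖ ^ 2) * A ^ 2 * T ^ 2 := by
    have h2 : ‖h'‖ ≤ (CL / r) * (1 + ‖h‖ ^ 2) := by
      rw [div_mul_eq_mul_div, le_div_iff₀ hr, mul_comm]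
      exact hh'
    have h3 : ‖h‖ * ‖L2‖ = ‖κ‖ * ‖L0‖ := by rw [← norm_mul, hh, norm_mul]
    have h4 : (1 + ‖h‖ ^ 2) * ‖L2‖ ^ 2 = ‖L2‖ ^ 2 + ‖κ‖ ^ 2 * ‖L0‖ ^ 2 := by
      rw [add_mul, one_mul, ← mul_pow, h3, mul_pow]
    have h5 : ‖L2‖ ^ 2 ≤ (A * T) ^ 2 := pow_le_pow_left₀ (norm_nonneg _) hL2 2
    have h6 : ‖L0‖ ^ 2 ≤ (A * T) ^ 2 := pow_le_pow_left₀ (norm_nonneg _) hL0 2
    calc ‖h'‖ * ‖L2‖ ^ 2 ≤ (CL / r) * (1 + ‖h‖ ^ 2) * ‖L2‖ ^ 2 := mul_le_mul_of_nonneg_right h2 (by positivity)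
      _ = (CL / r) * (‖L2‖ ^ 2 + ‖κ‖ ^ 2 * ‖L0‖ ^ 2) := by rw [mul_assoc, h4]
      _ ≤ (CL / r) * ((A * T) ^ 2 + ‖κ‖ ^ 2 * (A * T) ^ 2) := by
          refine mul_le_mul_of_nonneg_left (add_le_add h5 (mul_le_mul_of_nonneg_left h6 (by positivity))) (by positivity)
      _ = _ := by ring
  have h7 : ‖κ' * L0 * L2‖ ≤ ‖κ'‖ * A ^ 2 * T ^ 2 := by
    rw [norm_mul, norm_mul]
    calc ‖κ'‖ * ‖L0‖ * ‖L2‖ ≤ ‖κ'‖ * (A * T) * (A * T) := by gcongr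
      _ = _ := by ring
  have h8 : ‖κ * (E0 * L2 - L0 * E2)‖ ≤ 2 * ‖κ‖ * A ^ 2 * T ^ 2 := by
    rw [norm_mul]
    have h9 : ‖E0 * L2 - L0 * E2‖ ≤ (A * T) * (A * T) + (A * T) * (A * T) := by
      refine (norm_sub_le _ _).trans ?_
      rw [norm_mul, norm_mul]
      gcongr
    calc ‖κ‖ * ‖E0 * L2 - L0 * E2‖ ≤ ‖κ‖ * ((A * T) * (A * T) + (A * T) * (A * T)) :=
          mul_le_mul_of_nonneg_left h9 (norm_nonneg _)
      _ = _ := by ring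
  have h10 : ‖κ‖ * ‖a0 * b2 - a2 * b0‖ * ‖R' * S - R * S'‖ ≤
      ((CL / r) * (1 + ‖κ‖ ^ 2) * A ^ 2 + ‖κ'‖ * A ^ 2 + 2 * ‖κ‖ * A ^ 2) * T ^ 2 := by
    rw [← norm_mul, ← norm_mul, key]
    refine (norm_sub_le _ _).trans ?_
    have h11 := norm_sub_le (h' * L2 ^ 2) (κ' * L0 * L2)
    rw [norm_mul h', norm_pow] at h11
    linarith
  have hpos : 0 < ‖κ‖ * ‖a0 * b2 - a2 * b0‖ := mul_pos (norm_pos_iff.2 hκ) (norm_pos_iff.2 hD)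
  have hT2 : T ^ 2 ≤ 2 * (‖R‖ ^ 2 + ‖S‖ ^ 2) := by
    rw [hT]
    nlinarith [sq_nonneg (‖R‖ - ‖S‖)]
  rw [div_mul_eq_mul_div, le_div_iff₀ hpos, mul_comm]
  refine h10.trans ?_
  have hM : 0 ≤ (CL / r) * (1 + ‖κ‖ ^ 2) * A ^ 2 + ‖κ'‖ * A ^ 2 + 2 * ‖κ‖ * A ^ 2 := by positivity
  nlinarith [mul_le_mul_of_nonneg_left hT2 hM]

theorem lan3 {x : ℂ} {r : ℝ} (hr : 0 < r) {α β : Fin 3 → ℂ → ℂ}
    (hα : ∀ i, DifferentiableOn ℂ (α i) (ball x r)) (hβ : ∀ i, DifferentiableOn ℂ (β i) (ball x r))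
    (hD : ∀ i j, i ≠ j → ∀ z ∈ ball x r, α i z * β j z - α j z * β i z ≠ 0) :
    ∃ C : ℝ, ∀ R S : ℂ → ℂ, DifferentiableOn ℂ R (ball x r) → DifferentiableOn ℂ S (ball x r) →
      (∀ i, ∀ z ∈ ball x r, β i z * R z - α i z * S z ≠ 0) →
      ‖deriv R x * S x - R x * deriv S x‖ ≤ C * (‖R x‖ ^ 2 + ‖S x‖ ^ 2) := by
  obtain ⟨CL, hCL, hlan⟩ := landau
  have hx : x ∈ ball x r := mem_ball_self hr
  have hnh : ball x r ∈ 𝓝 x := isOpen_ball.mem_nhds hx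
  obtain ⟨κ, hκ⟩ : ∃ κ : ℂ → ℂ, κ = fun z => -(α 1 z * β 2 z - α 2 z * β 1 z) / (α 0 z * β 1 z - α 1 z * β 0 z) :=
    ⟨_, rfl⟩
  have hκd : DifferentiableOn ℂ κ (ball x r) := by
    rw [hκ]
    refine DifferentiableOn.div ?_ ?_ (fun z hz => hD 0 1 (by decide) z hz)
    · exact (((hα 1).mul (hβ 2)).sub ((hα 2).mul (hβ 1))).neg
    · exact ((hα 0).mul (hβ 1)).sub ((hα 1).mul (hβ 0))
  have hκ0 : ∀ z ∈ ball x r, κ z ≠ 0 := by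
    intro z hz
    rw [hκ]
    exact div_ne_zero (neg_ne_zero.2 (hD 1 2 (by decide) z hz)) (hD 0 1 (by decide) z hz)
  obtain ⟨A, hA⟩ : ∃ A : ℝ, A = (‖α 0 x‖ + ‖β 0 x‖) + (‖α 2 x‖ + ‖β 2 x‖) + (‖deriv (α 0) x‖ + ‖deriv (β 0) x‖) +
      (‖deriv (α 2) x‖ + ‖deriv (β 2) x‖) := ⟨_, rfl⟩
  refine ⟨2 * ((CL / r) * (1 + ‖κ x‖ ^ 2) * A ^ 2 + ‖deriv κ x‖ * A ^ 2 + 2 * ‖κ x‖ * A ^ 2) /
      (‖κ x‖ * ‖α 0 x * β 2 x - α 2 x * β 0 x‖), fun R S hR hS hL => ?_⟩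
  have n1 := norm_nonneg (α 0 x)
  have n2 := norm_nonneg (β 0 x)
  have n3 := norm_nonneg (α 2 x)
  have n4 := norm_nonneg (β 2 x)
  have n5 := norm_nonneg (deriv (α 0) x)
  have n6 := norm_nonneg (deriv (β 0) x)
  have n7 := norm_nonneg (deriv (α 2) x)
  have n8 := norm_nonneg (deriv (β 2) x)
  have dα : ∀ i, HasDerivAt (α i) (deriv (α i) x) x := fun i => ((hα i).differentiableAt hnh).hasDerivAt
  have dβ : ∀ i, HasDerivAt (β i) (deriv (β i) x) x := fun i => ((hβ i).differentiableAt hnh).hasDerivAt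
  have dR : HasDerivAt R (deriv R x) x := (hR.differentiableAt hnh).hasDerivAt
  have dS : HasDerivAt S (deriv S x) x := (hS.differentiableAt hnh).hasDerivAt
  have dκ : HasDerivAt κ (deriv κ x) x := (hκd.differentiableAt hnh).hasDerivAt
  obtain ⟨h, hh⟩ : ∃ h : ℂ → ℂ, h = fun z => κ z * (β 0 z * R z - α 0 z * S z) / (β 2 z * R z - α 2 z * S z) := ⟨_, rfl⟩
  have hhd : DifferentiableOn ℂ h (ball x r) := by
    rw [hh]
    refine DifferentiableOn.div ?_ ?_ (fun z hz => hL 2 z hz)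
    · exact hκd.mul (((hβ 0).mul hR).sub ((hα 0).mul hS))
    · exact ((hβ 2).mul hR).sub ((hα 2).mul hS)
  have hh0 : ∀ z ∈ ball x r, h z ≠ 0 ∧ h z ≠ 1 := by
    intro z hz
    have hD01 := hD 0 1 (by decide) z hz
    constructor
    · rw [hh]
      exact div_ne_zero (mul_ne_zero (hκ0 z hz) (hL 0 z hz)) (hL 2 z hz)
    · intro h1
      rw [hh] at h1
      have h2 : κ z * (β 0 z * R z - α 0 z * S z) = β 2 z * R z - α 2 z * S z := by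
        rwa [div_eq_one_iff_eq (hL 2 z hz)] at h1
      have h3 : κ z * (α 0 z * β 1 z - α 1 z * β 0 z) = -(α 1 z * β 2 z - α 2 z * β 1 z) := by
        rw [hκ]
        exact div_mul_cancel₀ _ hD01
      have h4 : (β 1 z * R z - α 1 z * S z) * (α 2 z * β 0 z - α 0 z * β 2 z) = 0 := by
        linear_combination (α 0 z * β 1 z - α 1 z * β 0 z) * h2 - (β 0 z * R z - α 0 z * S z) * h3
      rcases mul_eq_zero.1 h4 with h5 | h5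
      · exact hL 1 z hz h5
      · exact hD 2 0 (by decide) z hz h5
  have hdl : r * ‖deriv h x‖ ≤ CL * (1 + ‖h x‖ ^ 2) := by
    have hmap : ∀ z ∈ ball (0 : ℂ) 1, x + (r : ℂ) * z ∈ ball x r := by
      intro z hz
      rw [mem_ball_zero_iff] at hz
      rw [mem_ball, dist_eq_norm, add_sub_cancel_left, norm_mul, Complex.norm_real, Real.norm_of_nonneg hr.le]
      calc r * ‖z‖ < r * 1 := mul_lt_mul_of_pos_left hz hr
        _ = r := mul_one r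
    have h1 := hlan (fun z => h (x + (r : ℂ) * z)) (by
      refine DifferentiableOn.comp hhd ?_ hmap
      fun_prop) (fun z hz => hh0 _ (hmap z hz))
    have h2 : HasDerivAt (fun z : ℂ => h (x + (r : ℂ) * z)) (deriv h x * (r : ℂ)) 0 := by
      have h3 : HasDerivAt h (deriv h x) (x + (r : ℂ) * 0) := by
        rw [mul_zero, add_zero]
        exact (hhd.differentiableAt hnh).hasDerivAt
      have h4 : HasDerivAt (fun z : ℂ => x + (r : ℂ) * z) (r : ℂ) 0 := by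
        have := ((hasDerivAt_id (0 : ℂ)).const_mul (r : ℂ)).const_add x
        simpa using this
      exact HasDerivAt.comp (0 : ℂ) h3 h4
    rw [h2.deriv, norm_mul, Complex.norm_real, Real.norm_of_nonneg hr.le] at h1
    simp only [mul_zero, add_zero] at h1
    linarith
  have hder : HasDerivAt h (((deriv κ x * (β 0 x * R x - α 0 x * S x) + κ x *
      ((deriv (β 0) x * R x + β 0 x * deriv R x) - (deriv (α 0) x * S x + α 0 x * deriv S x))) *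
      (β 2 x * R x - α 2 x * S x) - κ x * (β 0 x * R x - α 0 x * S x) *
      ((deriv (β 2) x * R x + β 2 x * deriv R x) - (deriv (α 2) x * S x + α 2 x * deriv S x))) /
      (β 2 x * R x - α 2 x * S x) ^ 2) x := by
    rw [hh]
    exact (dκ.mul (((dβ 0).mul dR).sub ((dα 0).mul dS))).div (((dβ 2).mul dR).sub ((dα 2).mul dS)) (hL 2 x hx)
  have hL2 : β 2 x * R x - α 2 x * S x ≠ 0 := hL 2 x hx
  have q1 : ‖α 0 x‖ + ‖β 0 x‖ ≤ A := by rw [hA]; linarith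
  have q2 : ‖α 2 x‖ + ‖β 2 x‖ ≤ A := by rw [hA]; linarith
  have q3 : ‖deriv (α 0) x‖ + ‖deriv (β 0) x‖ ≤ A := by rw [hA]; linarith
  have q4 : ‖deriv (α 2) x‖ + ‖deriv (β 2) x‖ ≤ A := by rw [hA]; linarith
  refine lan_est hr hCL q1 q2 q3 q4
    (hκ0 x hx) (hD 0 2 (by decide) x hx) (h := h x) (h' := deriv h x) ?_ hdl ?_
  · rw [hh]
    exact div_mul_cancel₀ _ hL2
  · rw [hder.deriv]
    exact div_mul_cancel₀ _ (pow_ne_zero 2 hL2)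

end Pool.Agent.H84.TE
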