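import Pool.Agent.H84.TE.RPC
import Pool.Agent.H35.NA.Alg
import Pool.Agent.H91.CS.TBase

/-!
# Module RBT: three points with iterates in the cluster set

PROOF. `f = rat a b`, `om` = set of cluster points of `k ↦ (x k : OnePoint ℂ)`, `Om = {v | ∃ j, f^[j] v ∈ om}`. `om` is not empty (`OnePoint ℂ` is compact: `exists_clusterPt_of_compactSpace`), `om ⊆ Om` (`j = 0`). If `Om` has three distinct elements we are done (`Set.two_lt_ncard`, `Set.infinite`: an infinite set or a finite set with more than two elements has three distinct elements).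
Suppose not; then `Om` is finite. `f v ∈ Om → v ∈ Om`. `f` is surjective (`rat_surjective`, H35/NA/Alg): choose `g : Om → Om` with `f (g v) = v`; `g` is injective, so bijective (`Om` finite, `Finite.surjective_of_injective`): `f` maps `Om` into `Om` (`f (g v) = v`) and is injective on `Om`: if `v ∈ Om` and `f w = f v` then `w ∈ Om` (`f w = f v ∈ Om`) and `w = v`
(`v = g v'`, `w = g w'`, `f w = w'`, `f v = v'`). So every `v ∈ Om` is critical (`crit_of_only`). So for `c ∈ om`: `c = (z : OnePoint ℂ)`, `b.eval z ≠ 0` (`hcb`), `(ww a b).eval z = 0` (`crit_coe`, H44/Fatou/Basic: `Wr a b`, the same polynomial as `ww a b`; unfold both), so `dg a b z = 0` (`dg a b y = (ww a b).eval y / b.eval y ^ 2`), and `dg a b` is continuous at `z`.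
So there is an open `V ⊆ OnePoint ℂ`, `om ⊆ V` (union over `c ∈ om` of neighbourhoods) such that `(y : OnePoint ℂ) ∈ V` implies `‖dg a b y‖ ≤ 1 / 2`. By compactness `x k ∈ V` for all large `k` (otherwise frequently `x k ∈ Vᶜ`, compact, and there is a cluster point in `Vᶜ`: `IsCompact.exists_mapClusterPt_of_frequently`). So for large `k`:
`‖B k‖ = ‖B (k + 1)‖ * ‖dg a b (x (k + 1))‖ ≤ ‖B (k + 1)‖ / 2`: `‖B (K + j)‖ ≥ 2 ^ j * ‖B K‖`, against `hBt` and `B K ≠ 0`.
-/

set_option autoImplicit false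

open Filter Topology Polynomial Metric Set

namespace Pool.Agent.H84.TE

open Pool.Agent.H44.Fatou Pool.Agent.H61.TT Pool.Agent.H35.EX Pool.Agent.H91.CE Pool.Agent.H91.CS
open Pool.Agent.H32.BT

theorem rb3 {d : ℕ} {a b : Polynomial ℂ} (h : RatD d a b) {x B : ℕ → ℂ}
    (hcb : ∀ c : OnePoint ℂ, MapClusterPt c atTop (fun k => (x k : OnePoint ℂ)) →
      IsCrit (rat a b) c → ∃ z : ℂ, c = (z : OnePoint ℂ) ∧ b.eval z ≠ 0)
    (hB : ∀ k, B (k + 1) * dg a b (x (k + 1)) = B k) (hB0 : ∀ k, B k ≠ 0)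
    (hBt : Tendsto B atTop (𝓝 0)) :
    ∃ u : Fin 3 → OnePoint ℂ, Function.Injective u ∧
      ∀ i, ∃ j, MapClusterPt ((rat a b)^[j] (u i)) atTop fun k => (x k : OnePoint ℂ) := by
  by_contra hno
  obtain ⟨f, hf⟩ : ∃ f, f = rat a b := ⟨_, rfl⟩
  rw [← hf] at hno
  obtain ⟨om, hom⟩ : ∃ om : Set (OnePoint ℂ), ∀ v, v ∈ om ↔
      MapClusterPt v atTop (fun k => (x k : OnePoint ℂ)) :=
    ⟨{v | MapClusterPt v atTop (fun k => (x k : OnePoint ℂ))}, fun _ => Iff.rfl⟩
  obtain ⟨Om, hOm⟩ : ∃ Om : Set (OnePoint ℂ), ∀ v, v ∈ Om ↔ ∃ j, f^[j] v ∈ om :=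
    ⟨{v | ∃ j, f^[j] v ∈ om}, fun _ => Iff.rfl⟩
  have hfin : Om.Finite := by
    by_contra hinf
    apply hno
    refine ⟨fun i => (Set.Infinite.natEmbedding Om hinf (i : ℕ) : OnePoint ℂ), ?_, ?_⟩
    · intro i j hij
      have h1 : Set.Infinite.natEmbedding Om hinf (i : ℕ) =
          Set.Infinite.natEmbedding Om hinf (j : ℕ) := Subtype.ext hij
      exact Fin.ext ((Set.Infinite.natEmbedding Om hinf).injective h1)
    · intro i
      obtain ⟨j, hj⟩ := (hOm _).1 (Set.Infinite.natEmbedding Om hinf (i : ℕ)).2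
      exact ⟨j, (hom _).1 hj⟩
  have hback : ∀ v, f v ∈ Om → v ∈ Om := by
    intro v hv
    obtain ⟨j, hj⟩ := (hOm _).1 hv
    rw [← Function.iterate_succ_apply] at hj
    exact (hOm _).2 ⟨j + 1, hj⟩
  have hdg1 : 1 ≤ Pool.Agent.H44.Fatou.dg a b := by
    have h1 := h.deg
    have h2 := h.hd
    show 1 ≤ max a.natDegree b.natDegree
    omega
  have hsurj : ∀ v, ∃ w, f w = v := by
    rw [hf]
    exact H35.NA.rat_surjective h.cop hdg1
  have hex : ∀ v : Om, ∃ w : Om, f w = v := by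
    rintro ⟨v, hv⟩
    obtain ⟨w, hw⟩ := hsurj v
    refine ⟨⟨w, hback w ?_⟩, hw⟩
    rw [hw]
    exact hv
  choose g hg using hex
  have hgi : Function.Injective g := by
    intro v w hvw
    apply Subtype.ext
    rw [← hg v, ← hg w, hvw]
  have : Finite Om := hfin
  have hgs : Function.Surjective g := Finite.surjective_of_injective hgi
  have hcrit : ∀ v ∈ Om, IsCrit f v := by
    intro v hv
    rw [hf]
    apply crit_of_only h.cop (by rw [h.deg]; exact h.hd)
    rw [← hf]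
    intro w hw
    obtain ⟨v', hv'⟩ := hgs ⟨v, hv⟩
    have h1 : f v = v' := by
      rw [← hg v', hv']
    have hwO : w ∈ Om := by
      apply hback
      rw [hw, h1]
      exact v'.2
    obtain ⟨w', hw'⟩ := hgs ⟨w, hwO⟩
    have h2 : f w = w' := by
      rw [← hg w', hw']
    have h3 : w' = v' := by
      apply Subtype.ext
      rw [← h1, ← h2, hw]
    have h4 : (⟨w, hwO⟩ : Om) = ⟨v, hv⟩ := by rw [← hw', ← hv', h3]
    exact congrArg Subtype.val h4
  have homO : ∀ v ∈ om, v ∈ Om := fun v hv => (hOm v).2 ⟨0, hv⟩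
  obtain ⟨W, hW⟩ : ∃ W : Set ℂ, W = interior {y : ℂ | ‖dg a b y‖ ≤ 1 / 2} := ⟨_, rfl⟩
  have hWV : ∀ v ∈ om, v ∈ ((↑) : ℂ → OnePoint ℂ) '' W := by
    intro v hv
    have hc := hcrit v (homO v hv)
    rw [hf] at hc
    obtain ⟨c, hcv, hb⟩ := hcb v ((hom v).1 hv) hc
    rw [hcv] at hc ⊢
    refine ⟨c, ?_, rfl⟩
    have h1 : (ww a b).eval c = 0 := crit_coe hc
    rw [hW, mem_interior_iff_mem_nhds]
    have h2 : dg a b c = 0 := by
      unfold Pool.Agent.H61.TT.dg
      rw [h1, zero_div]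
    have h3 : ContinuousAt (fun y => dg a b y) c := by
      unfold Pool.Agent.H61.TT.dg
      exact (ww a b).continuous.continuousAt.div (b.continuous.pow 2).continuousAt
        (pow_ne_zero 2 hb)
    have h4 : Tendsto (fun y => ‖dg a b y‖) (𝓝 c) (𝓝 0) := by
      have h5 : Tendsto (fun y => ‖dg a b y‖) (𝓝 c) (𝓝 ‖dg a b c‖) := h3.norm
      rw [h2, norm_zero] at h5
      exact h5
    have h6 := h4.eventually (Iio_mem_nhds (show (0 : ℝ) < 1 / 2 by norm_num))
    filter_upwards [h6] with y hy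
    exact le_of_lt hy
  have hVo : IsOpen (((↑) : ℂ → OnePoint ℂ) '' W) := by
    apply OnePoint.isOpenEmbedding_coe.isOpenMap
    rw [hW]
    exact isOpen_interior
  have hev : ∀ᶠ k in atTop, ((x k : ℂ) : OnePoint ℂ) ∈ ((↑) : ℂ → OnePoint ℂ) '' W := by
    by_contra hcon
    rw [not_eventually] at hcon
    have h1 : IsCompact (((↑) : ℂ → OnePoint ℂ) '' W)ᶜ := hVo.isClosed_compl.isCompact
    obtain ⟨v, hv, hv'⟩ := h1.exists_mapClusterPt_of_frequently hcon
    exact hv (hWV v ((hom v).2 hv'))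
  obtain ⟨K, hK⟩ := eventually_atTop.1 hev
  have hstep : ∀ j, ‖B K‖ ≤ ‖B (K + j)‖ := by
    intro j
    induction j with
    | zero => exact le_rfl
    | succ j ih =>
      refine ih.trans ?_
      obtain ⟨y, hy, hy'⟩ := hK (K + j + 1) (by omega)
      rw [OnePoint.coe_eq_coe] at hy'
      rw [hW] at hy
      have h1 : y ∈ {y : ℂ | ‖dg a b y‖ ≤ 1 / 2} := interior_subset hy
      rw [Set.mem_ofPred_eq] at h1
      rw [hy'] at h1
      rw [← hB (K + j), norm_mul]
      have h2 := norm_nonneg (B (K + j + 1))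
      have h3 : ‖B (K + j + 1)‖ * ‖dg a b (x (K + j + 1))‖ ≤ ‖B (K + j + 1)‖ * 1 :=
        mul_le_mul_of_nonneg_left (h1.trans (by norm_num)) h2
      rw [mul_one] at h3
      exact h3
  have hlim : Tendsto (fun j => ‖B (K + j)‖) atTop (𝓝 0) := by
    have h1 := hBt.norm
    rw [norm_zero] at h1
    have h2 : Tendsto (fun j : ℕ => K + j) atTop atTop :=
      tendsto_atTop_mono (fun j => Nat.le_add_left j K) tendsto_id
    exact h1.comp h2
  have hle : ‖B K‖ ≤ 0 := ge_of_tendsto' hlim hstep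
  exact hB0 K (norm_le_zero_iff.1 hle)

end Pool.Agent.H84.TE
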