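import Pool.Agent.H84.TE.EDefs
import Pool.Agent.H79.MZ.ALI

/-!
# Module RAL: the phases along inverse branches

PROOF. Copy of `al_g` (H79/MZ/ALI), with `LF a b q` (H91/CS/TBase) in place of `al_n`: `LF` says that for almost every `y`, for all `N` with `Fi a b N y`, `q y = l * dn a b N y ^ 2 * q ((gg a b)^[N] y)` with `l ≥ 0`. `N` = the null set of the exceptional `y`. `{z ∈ U | g z ∈ N}` is null: it is contained in `(gg a b)^[n] '' (N ∩ g '' U)`
(`hi`), and the iterate is differentiable at the points of `g '' U` (`it_deriv`, H79/MZ/ALI; `Fi` unfolds to its hypothesis), so it maps null sets to null sets (`addHaar_image_eq_zero_of_differentiableOn_of_addHaar_eq_zero` over `ℝ`). At `z ∈ U` with `g z ∉ N`: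
`q (g z) = l * dn a b n (g z) ^ 2 * q z` and `dn a b n (g z) * deriv g z = 1` (derivative of `(gg a b)^[n] (g z) = z`, chain rule, `it_deriv`; `dn` is this product by definition). So `q (g z) * deriv g z ^ 2 = l * q z`.
`rnul`: preimages of null sets under `g` are null: the same argument with an arbitrary null set `N`.
`rdn`: the derivatives are inverse to each other: the same computation.
-/

set_option autoImplicit false

open Filter Topology Polynomial Metric Set MeasureTheory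

namespace Pool.Agent.H84.TE

open Pool.Agent.H44.Fatou Pool.Agent.H61.TT Pool.Agent.H35.EX Pool.Agent.H91.CE Pool.Agent.H91.CS

theorem rdn {a b : Polynomial ℂ} {U : Set ℂ} (hU : IsOpen U) {g : ℂ → ℂ}
    (hg : DifferentiableOn ℂ g U) {n : ℕ} (hb : ∀ z ∈ U, Fi a b n (g z))
    (hi : ∀ z ∈ U, (gg a b)^[n] (g z) = z) {z : ℂ} (hz : z ∈ U) :
    dn a b n (g z) * deriv g z = 1 := by
  have h5 := Pool.Agent.H79.MZ.it_deriv (a := a) n (g z) (hb z hz)
  have h6 : HasDerivAt g (deriv g z) z := ((hg z hz).differentiableAt (hU.mem_nhds hz)).hasDerivAt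
  have h7 := h5.comp z h6
  have h8 : HasDerivAt ((gg a b)^[n] ∘ g) 1 z := by
    refine (hasDerivAt_id z).congr_of_eventuallyEq ?_
    filter_upwards [hU.mem_nhds hz] with w hw
    exact hi w hw
  exact h7.unique h8

theorem rnul {a b : Polynomial ℂ} {U : Set ℂ} {g : ℂ → ℂ} {n : ℕ}
    (hb : ∀ z ∈ U, Fi a b n (g z)) (hi : ∀ z ∈ U, (gg a b)^[n] (g z) = z) {N : Set ℂ}
    (hN : volume N = 0) : ∀ᵐ z : ℂ, z ∈ U → g z ∉ N := by
  have hnull : volume ((gg a b)^[n] '' (N ∩ g '' U)) = 0 := by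
    apply addHaar_image_eq_zero_of_differentiableOn_of_addHaar_eq_zero
    · rintro y ⟨-, z, hz, rfl⟩
      exact ((Pool.Agent.H79.MZ.it_deriv n (g z) (hb z hz)).differentiableAt.restrictScalars
        ℝ).differentiableWithinAt
    · exact measure_mono_null Set.inter_subset_left hN
  have hae : ∀ᵐ z : ℂ, z ∉ (gg a b)^[n] '' (N ∩ g '' U) := by
    rw [ae_iff]
    simp only [not_not]
    exact hnull
  filter_upwards [hae] with z hz hzU h2
  exact hz ⟨g z, ⟨h2, z, hzU, rfl⟩, hi z hzU⟩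

theorem ral {a b : Polynomial ℂ} {q : ℂ → ℂ} (hlf : LF a b q) {U : Set ℂ} (hU : IsOpen U)
    {g : ℂ → ℂ} (hg : DifferentiableOn ℂ g U) {n : ℕ} (hb : ∀ z ∈ U, Fi a b n (g z))
    (hi : ∀ z ∈ U, (gg a b)^[n] (g z) = z) :
    ∀ᵐ z : ℂ, z ∈ U → ∃ ρ : ℝ, 0 ≤ ρ ∧ q (g z) * deriv g z ^ 2 = (ρ : ℂ) * q z := by
  obtain ⟨N, hN⟩ : ∃ N : Set ℂ, N = {y | ¬ ∀ N : ℕ, Fi a b N y →
      ∃ l : ℝ, 0 ≤ l ∧ q y = l * dn a b N y ^ 2 * q ((gg a b)^[N] y)} := ⟨_, rfl⟩
  have hN0 : volume N = 0 := by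
    rw [hN]
    exact hlf
  filter_upwards [rnul hb hi hN0] with z hz hzU
  have h1 : g z ∉ N := hz hzU
  rw [hN] at h1
  have h2 : ∀ N : ℕ, Fi a b N (g z) →
      ∃ l : ℝ, 0 ≤ l ∧ q (g z) = l * dn a b N (g z) ^ 2 * q ((gg a b)^[N] (g z)) := by
    by_contra h5
    exact h1 h5
  obtain ⟨ρ, h3, h4⟩ := h2 n (hb z hzU)
  rw [hi z hzU] at h4
  have h9 := rdn hU hg hb hi hzU
  refine ⟨ρ, h3, ?_⟩
  rw [h4]
  linear_combination ((ρ : ℂ) * q z * (dn a b n (g z) * deriv g z + 1)) * h9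

end Pool.Agent.H84.TE
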