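import Pool.Agent.H84.TE.LAN3
import Pool.Agent.H84.TE.RAL
import Pool.Agent.H79.Par.PerFin

/-!
# Module RLA: a bound for the derivatives of iterates which omit three points

PROOF. `u i = pt (α i) (β i)` with constants (`pt z 1` for a finite point, `pt 1 0 = ∞`), `(α i, β i) ≠ (0, 0)`, and `α i β j - α j β i ≠ 0` for `i ≠ j` (`u` injective; `pt_eq_pt`). `ball z s ⊆ ball y r` for some `s > 0`. `lan3` on `ball z s` with the constant functions: `C`. For `n`: `R, S` = evaluations of `perRS a b n` (H79/Par/PerFin, `perRS_spec`: not both zero, `(rat a b)^[n] w = pt (R w) (S w)`);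
`β i R w - α i S w ≠ 0` (otherwise `pt (R w) (S w) = pt (α i) (β i) = u i`, `pt_eq_pt`, H91/Fatou/Crit). If `Fi a b n z`: `S z ≠ 0` and `R z = (gg a b)^[n] z * S z` (`(rat a b)^[n] z = ((gg a b)^[n] z : OnePoint ℂ)` by induction with `rat_coe_of_ne`; `pt` unfolded), and near `z` `(gg a b)^[n] w = R w / S w` (same for `w` near `z`; `Fi` is an open condition; or compare the derivatives: `it_deriv`, H79/MZ/ALI, gives
`HasDerivAt ((gg a b)^[n]) (dn a b n z) z`), so `dn a b n z = (R' S - R S') / S ^ 2` at `z`: `‖dn a b n z‖ * ‖S z‖ ^ 2 ≤ C * (‖R z‖ ^ 2 + ‖S z‖ ^ 2) = C * ‖S z‖ ^ 2 * (1 + ‖(gg a b)^[n] z‖ ^ 2)`.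
-/

set_option autoImplicit false

open Filter Topology Polynomial Metric Set MeasureTheory

namespace Pool.Agent.H84.TE

open Pool.Agent.H44.Fatou Pool.Agent.H61.TT Pool.Agent.H35.EX Pool.Agent.H91.CE Pool.Agent.H91.CS

private theorem rep (x : OnePoint ℂ) : ∃ α β : ℂ, (α ≠ 0 ∨ β ≠ 0) ∧ x = pt α β := by
  induction x using OnePoint.rec with
  | infty => exact ⟨1, 0, Or.inl one_ne_zero, by unfold pt; rw [if_pos rfl]⟩
  | coe z => exact ⟨z, 1, Or.inr one_ne_zero, by unfold pt; rw [if_neg one_ne_zero, div_one]⟩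

private theorem rat_gg {a b : Polynomial ℂ} {n : ℕ} {z : ℂ} (h : Fi a b n z) :
    (rat a b)^[n] (z : OnePoint ℂ) = (((gg a b)^[n] z : ℂ) : OnePoint ℂ) := by
  induction n with
  | zero => rfl
  | succ n ih =>
    rw [Function.iterate_succ_apply', ih fun i hi => h i (by omega), Function.iterate_succ_apply',
      rat_coe_of_ne (h n (Nat.lt_succ_self n))]
    rfl

private theorem fi_open {a b : Polynomial ℂ} {n : ℕ} {z : ℂ} (h : Fi a b n z) : ∀ᶠ w in 𝓝 z, Fi a b n w := by
  have h1 : ∀ i ∈ Finset.range n, ∀ᶠ w in 𝓝 z, b.eval ((gg a b)^[i] w) ≠ 0 := by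
    intro i hi
    have hi' := Finset.mem_range.1 hi
    have h2 : ContinuousAt ((gg a b)^[i]) z :=
      (Pool.Agent.H79.MZ.it_deriv i z fun j hj => h j (by omega)).continuousAt
    have h3 : ContinuousAt (fun w => b.eval ((gg a b)^[i] w)) z := b.continuous.continuousAt.comp h2
    exact h3.eventually_ne (h i hi')
  rw [← Filter.eventually_all_finset] at h1
  filter_upwards [h1] with w hw i hi
  exact hw i (Finset.mem_range.2 hi)

theorem rla {a b : Polynomial ℂ} (hc : IsCoprime a b) {y : ℂ} {r : ℝ} {u : Fin 3 → OnePoint ℂ}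
    (hu : Function.Injective u)
    (hom : ∀ n, ∀ w ∈ ball y r, ∀ i, (rat a b)^[n] (w : OnePoint ℂ) ≠ u i) {z : ℂ}
    (hz : z ∈ ball y r) :
    ∃ C : ℝ, ∀ n, Fi a b n z → ‖dn a b n z‖ ≤ C * (1 + ‖(gg a b)^[n] z‖ ^ 2) := by
  choose α β hαβ hu' using fun i => rep (u i)
  obtain ⟨s, hs, hsub⟩ := Metric.isOpen_iff.1 isOpen_ball z hz
  have hD : ∀ i j, i ≠ j → ∀ w ∈ ball z s, (fun _ : ℂ => α i) w * (fun _ : ℂ => β j) w -
      (fun _ : ℂ => α j) w * (fun _ : ℂ => β i) w ≠ 0 := by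
    intro i j hij w _ h0
    apply hij
    apply hu
    rw [hu' i, hu' j]
    exact Pool.Agent.H91.Fatou.pt_eq_pt (hαβ i) (hαβ j) (sub_eq_zero.1 h0)
  obtain ⟨C, hC⟩ := lan3 (x := z) (r := s) hs (α := fun i _ => α i) (β := fun i _ => β i)
    (fun i => differentiableOn_const _) (fun i => differentiableOn_const _) hD
  refine ⟨C, fun n hf => ?_⟩
  obtain ⟨R, hR⟩ : ∃ R : Polynomial ℂ, R = (Pool.Agent.H79.Par.perRS a b n).1 := ⟨_, rfl⟩
  obtain ⟨S, hS⟩ : ∃ S : Polynomial ℂ, S = (Pool.Agent.H79.Par.perRS a b n).2 := ⟨_, rfl⟩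
  have hRS : ∀ w : ℂ, (R.eval w ≠ 0 ∨ S.eval w ≠ 0) ∧ (rat a b)^[n] (w : OnePoint ℂ) = pt (R.eval w) (S.eval w) := by
    intro w
    rw [hR, hS]
    exact Pool.Agent.H79.Par.perRS_spec hc w n
  have h1 := hC (fun w => R.eval w) (fun w => S.eval w) R.differentiable.differentiableOn
    S.differentiable.differentiableOn (by
      intro i w hw h0
      apply hom n w (hsub hw) i
      rw [hu' i, (hRS w).2]
      refine Pool.Agent.H91.Fatou.pt_eq_pt (hRS w).1 (hαβ i) ?_
      have h0' : β i * R.eval w - α i * S.eval w = 0 := h0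
      linear_combination h0')
  have hval : ∀ w : ℂ, Fi a b n w → S.eval w ≠ 0 ∧ (gg a b)^[n] w = R.eval w / S.eval w := by
    intro w hw
    have h2 := (hRS w).2
    rw [rat_gg hw] at h2
    unfold pt at h2
    split_ifs at h2 with h3
    · exact absurd h2 (OnePoint.coe_ne_infty _)
    · exact ⟨h3, OnePoint.coe_injective h2⟩
  obtain ⟨hSz, hRz⟩ := hval z hf
  have hder1 : HasDerivAt ((gg a b)^[n]) (dn a b n z) z := Pool.Agent.H79.MZ.it_deriv n z hf
  have hder2 : HasDerivAt (fun w => R.eval w / S.eval w)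
      (((derivative R).eval z * S.eval z - R.eval z * (derivative S).eval z) / S.eval z ^ 2) z :=
    (R.hasDerivAt z).div (S.hasDerivAt z) hSz
  have hee : (fun w => R.eval w / S.eval w) =ᶠ[𝓝 z] (gg a b)^[n] := by
    filter_upwards [fi_open hf] with w hw
    exact (hval w hw).2.symm
  have hdn : dn a b n z =
      ((derivative R).eval z * S.eval z - R.eval z * (derivative S).eval z) / S.eval z ^ 2 :=
    (hder1.congr_of_eventuallyEq hee).unique hder2
  have h1' : ‖(derivative R).eval z * S.eval z - R.eval z * (derivative S).eval z‖ ≤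
      C * (‖R.eval z‖ ^ 2 + ‖S.eval z‖ ^ 2) := by
    rw [(R.hasDerivAt z).deriv, (S.hasDerivAt z).deriv] at h1
    exact h1
  have hSp : 0 < ‖S.eval z‖ ^ 2 := by positivity
  rw [hdn, hRz, norm_div, norm_div, norm_pow, div_le_iff₀ hSp]
  refine h1'.trans (le_of_eq ?_)
  field_simp
  ring

end Pool.Agent.H84.TE
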