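import Pool.Agent.H84.TE.EDefs

/-!
# Module RCN: a positive function times a holomorphic function has its values in a half plane

PROOF. `H` from `h` (`RHol`), `u = H s ≠ 0`. `H` is continuous at `s` (`D` open): there is `r > 0` with `ball s r ⊆ D` and `‖H w - H s‖ ≤ ‖H s‖ / 4` on it. For almost every `w ∈ ball s r`: `q w = R * H w`, `R > 0`, so
`(q w * conj u).re = R * (H w * conj u).re = R * (‖u‖ ^ 2 + ((H w - u) * conj u).re) ≥ R * (3 / 4) * ‖u‖ ^ 2` and `‖q w‖ * ‖u‖ / 2 = R * ‖H w‖ * ‖u‖ / 2 ≤ R * (5 / 8) * ‖u‖ ^ 2`.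
-/

set_option autoImplicit false

open Filter Topology Polynomial Metric Set MeasureTheory

namespace Pool.Agent.H84.TE

open Pool.Agent.H44.Fatou Pool.Agent.H61.TT Pool.Agent.H35.EX Pool.Agent.H91.CE Pool.Agent.H91.CS

theorem rcn {q : ℂ → ℂ} {D : Set ℂ} (hD : IsOpen D) (h : RHol q D) {s : ℂ} (hs : s ∈ D) :
    Cone q s := by
  obtain ⟨H, hH, hH0, hq⟩ := h
  have hu : H s ≠ 0 := hH0 s hs
  have hun : 0 < ‖H s‖ := norm_pos_iff.2 hu
  have hc : ContinuousAt H s := (hH.differentiableAt (hD.mem_nhds hs)).continuousAt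
  have hev : ∀ᶠ w in 𝓝 s, w ∈ D ∧ ‖H w - H s‖ < ‖H s‖ / 4 := by
    refine (hD.eventually_mem hs).and ?_
    have h1 := Metric.tendsto_nhds.1 hc (‖H s‖ / 4) (by positivity)
    filter_upwards [h1] with w hw
    rwa [dist_eq_norm] at hw
  obtain ⟨r, hr, hball⟩ := Metric.eventually_nhds_iff_ball.1 hev
  refine ⟨H s, r, hu, hr, ?_⟩
  filter_upwards [hq] with w hw hwr
  obtain ⟨hwD, hwH⟩ := hball w hwr
  obtain ⟨R, hR, hqw⟩ := hw hwD
  set u := H s with hudef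
  have e1 : (q w * (starRingEnd ℂ) u).re = R * (‖u‖ ^ 2 + ((H w - u) * (starRingEnd ℂ) u).re) := by
    have e2 : q w * (starRingEnd ℂ) u =
        (R : ℂ) * (u * (starRingEnd ℂ) u + (H w - u) * (starRingEnd ℂ) u) := by
      rw [hqw]
      ring
    rw [e2, Complex.re_ofReal_mul, Complex.add_re, Complex.mul_conj, Complex.ofReal_re,
      Complex.normSq_eq_norm_sq]
  have e3 : |((H w - u) * (starRingEnd ℂ) u).re| ≤ ‖u‖ ^ 2 / 4 := by
    refine (Complex.abs_re_le_norm _).trans ?_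
    rw [norm_mul, Complex.norm_conj]
    nlinarith [norm_nonneg (H w - u)]
  have e4 : ‖q w‖ ≤ R * (5 / 4 * ‖u‖) := by
    rw [hqw, norm_mul, Complex.norm_real, Real.norm_of_nonneg hR.le]
    refine mul_le_mul_of_nonneg_left ?_ hR.le
    have e5 : ‖H w‖ ≤ ‖H w - u‖ + ‖u‖ := by
      have := norm_add_le (H w - u) u
      rwa [sub_add_cancel] at this
    linarith
  rw [e1]
  have e6 := (abs_le.1 e3).1
  have e7 : ‖q w‖ * ‖u‖ / 2 ≤ R * (5 / 8 * ‖u‖ ^ 2) := by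
    have := mul_le_mul_of_nonneg_right e4 hun.le
    nlinarith
  have e8 : R * (5 / 8 * ‖u‖ ^ 2) ≤ R * (‖u‖ ^ 2 + ((H w - u) * (starRingEnd ℂ) u).re) := by
    apply mul_le_mul_of_nonneg_left _ hR.le
    nlinarith [sq_nonneg ‖u‖]
  linarith

end Pool.Agent.H84.TE
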