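import Pool.Agent.H84.TE.RPU
import Pool.Agent.H84.TE.RCN
import Pool.Agent.H91.CS.TCON
import Pool.Agent.H91.Fatou.Mob
import Pool.Agent.H32.BT.Crit

/-!
# Module ROM: the iterates of the disc omit the cluster points of the residues

PROOF. `f = rat a b`, continuous (`rat_continuous`) and open (`rat_isOpenMap`, H91/Fatou/Mob; the degree there is `max` of the degrees, `h.deg`, `h.hd`), so `f^[n]` is open. Suppose `f^[n] w = u`, `w ∈ D`. `D` is open in `OnePoint ℂ` too (`OnePoint.isOpenEmbedding_coe`), so `f^[n] '' D` is a neighbourhood of `u`, and for infinitely many `k`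
(`MapClusterPt` gives `∃ᶠ k in atTop, s k ∈ f^[n] '' D`) `s k = f^[n] w'` with `w' ∈ D`. The set `E` of the `w' ∈ ℂ` with `f^[i] w' = ∞` for some `i < n`, or `f^[i] w' = (c : OnePoint ℂ)` for some `i < n` and some zero `c` of `ww a b`, is finite (`rat_fiber_finite`, H32/BT/Crit, iterated; `ww_ne`: `ww a b ≠ 0`, finitely many roots): so `f^[n] '' E` is finite, `s` is injective:
there is `k` with `s k = f^[n] w'`, `w' ∈ D`, `w' ∉ E`. Then `Fi a b n w'` (by induction on `i`: `(gg a b)^[i] w'` is `f^[i] w'`, `rat_coe_of_ne`; if `b.eval ((gg a b)^[i] w') = 0` then `f^[i + 1] w' = ∞` (`rat_coe`, `pt`, coprime), which is excluded for `i + 1 < n`, and for `i + 1 = n` because `s k` is finite), `(gg a b)^[n] w' = s k`, and `dn a b n w' ≠ 0`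
(`dg a b y = (ww a b).eval y / b.eval y ^ 2`, `dg_ne`). `rpush`: `RHol q (ball (s k) ρ)`, `rcn`: `Cone q (s k)`, `rs_zero_of_cone` (H91/CS/TCON): `rs β P (s k) = 0`, against `hs`.
-/

set_option autoImplicit false

open Filter Topology Polynomial Metric Set MeasureTheory

namespace Pool.Agent.H84.TE

open Pool.Agent.H44.Fatou Pool.Agent.H61.TT Pool.Agent.H35.EX Pool.Agent.H91.CE Pool.Agent.H91.CS

private theorem rom_fin {a b : Polynomial ℂ} (hc : IsCoprime a b)
    (hd : 1 ≤ max a.natDegree b.natDegree) (i : ℕ) : ∀ T : Set (OnePoint ℂ), T.Finite →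
      ((rat a b)^[i] ⁻¹' T).Finite := by
  induction i with
  | zero =>
    intro T hT
    exact hT
  | succ i ih =>
    intro T hT
    have h1 : (rat a b)^[i + 1] ⁻¹' T = rat a b ⁻¹' ((rat a b)^[i] ⁻¹' T) := by
      rw [Function.iterate_succ]
      rfl
    rw [h1]
    exact (ih T hT).preimage' fun y _ => Pool.Agent.H32.BT.rat_fiber_finite hc hd y

theorem rom {d : ℕ} {a b : Polynomial ℂ} (h : RatD d a b) {β P : ℕ → ℂ}
    (hβ : Summable fun k => ‖β k‖) (hlf : LF a b (qs β P)) {D : Set ℂ} (hD : IsOpen D)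
    (hr : RHol (qs β P) D) {s : ℕ → ℂ} (hsi : Function.Injective s)
    (hs : ∀ k, rs β P (s k) ≠ 0) {u : OnePoint ℂ}
    (hu : MapClusterPt u atTop fun k => (s k : OnePoint ℂ)) (n : ℕ) {w : ℂ} (hw : w ∈ D) :
    (rat a b)^[n] (w : OnePoint ℂ) ≠ u := by
  intro hwu
  have hdeg : 1 ≤ max a.natDegree b.natDegree := by
    rw [h.deg]
    have := h.hd
    omega
  have hopen : IsOpenMap ((rat a b)^[n]) := by
    have h1 : IsOpenMap (rat a b) := Pool.Agent.H32.BT.rat_open h.cop hdeg
    clear hwu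
    induction n with
    | zero => exact IsOpenMap.id
    | succ n ih =>
      rw [Function.iterate_succ]
      exact ih.comp h1
  have hinj : Function.Injective ((↑) : ℂ → OnePoint ℂ) := OnePoint.coe_injective
  have hW : (rat a b)^[n] '' (((↑) : ℂ → OnePoint ℂ) '' D) ∈ 𝓝 u := by
    refine (hopen _ (OnePoint.isOpenEmbedding_coe.isOpenMap D hD)).mem_nhds ?_
    exact ⟨w, ⟨w, hw, rfl⟩, hwu⟩
  have hfreq := mapClusterPt_iff_frequently.1 hu _ hW
  -- the exceptional set
  obtain ⟨T, hT⟩ : ∃ T : Set (OnePoint ℂ), T =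
      {OnePoint.infty} ∪ ((↑) : ℂ → OnePoint ℂ) '' {c | (ww a b).eval c = 0} := ⟨_, rfl⟩
  have hTf : T.Finite := by
    rw [hT]
    refine (Set.finite_singleton _).union (Set.Finite.image _ ?_)
    refine (ww a b).roots.toFinset.finite_toSet.subset ?_
    intro c hc
    have hc' : (ww a b).eval c = 0 := hc
    rw [Finset.mem_coe, Multiset.mem_toFinset, mem_roots (ww_ne h)]
    exact hc'
  obtain ⟨E, hE⟩ : ∃ E : Set (OnePoint ℂ), E = ⋃ i ∈ Finset.range n, (rat a b)^[i] ⁻¹' T := ⟨_, rfl⟩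
  have hEf : E.Finite := by
    rw [hE]
    exact Set.Finite.biUnion (Finset.finite_toSet _) fun i _ => rom_fin h.cop hdeg i T hTf
  have hEv : ∀ᶠ k in atTop, (s k : OnePoint ℂ) ∉ (rat a b)^[n] '' E := by
    rw [← Nat.cofinite_eq_atTop]
    have h1 : ((fun k => (s k : OnePoint ℂ)) ⁻¹' ((rat a b)^[n] '' E)).Finite :=
      (hEf.image _).preimage (hinj.comp hsi).injOn
    exact h1.eventually_cofinite_notMem
  obtain ⟨k, hk1, hk2⟩ := (hfreq.and_eventually hEv).exists
  obtain ⟨_, ⟨w', hw', rfl⟩, hk⟩ := hk1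
  have hwE : (w' : OnePoint ℂ) ∉ E := fun h1 => hk2 ⟨_, h1, hk⟩
  have hnT : ∀ i < n, (rat a b)^[i] (w' : OnePoint ℂ) ∉ T := by
    intro i hi h1
    apply hwE
    rw [hE]
    exact Set.mem_biUnion (x := i) (Finset.mem_range.2 hi) h1
  have hninf : ∀ i ≤ n, (rat a b)^[i] (w' : OnePoint ℂ) ≠ OnePoint.infty := by
    intro i hi h1
    rcases hi.lt_or_eq with h2 | h2
    · apply hnT i h2
      rw [hT, h1]
      exact Or.inl rfl
    · rw [h2, hk] at h1
      exact OnePoint.coe_ne_infty _ h1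
  have hind : ∀ i ≤ n, (rat a b)^[i] (w' : OnePoint ℂ) = (((gg a b)^[i] w' : ℂ) : OnePoint ℂ) ∧
      ∀ j < i, b.eval ((gg a b)^[j] w') ≠ 0 := by
    intro i
    induction i with
    | zero =>
      intro _
      exact ⟨rfl, fun j hj => absurd hj (Nat.not_lt_zero j)⟩
    | succ i ih =>
      intro hi
      obtain ⟨h1, h2⟩ := ih (by omega)
      have h3 : b.eval ((gg a b)^[i] w') ≠ 0 := by
        intro h0
        apply hninf (i + 1) hi
        rw [Function.iterate_succ_apply', h1, rat_coe]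
        unfold pt
        rw [if_pos h0]
      refine ⟨?_, ?_⟩
      · rw [Function.iterate_succ_apply', h1, rat_coe_of_ne h3, Function.iterate_succ_apply']
        rfl
      · intro j hj
        rcases Nat.lt_succ_iff_lt_or_eq.1 hj with h4 | h4
        · exact h2 j h4
        · rw [h4]
          exact h3
  have hFi : Fi a b n w' := (hind n le_rfl).2
  have hgk : (gg a b)^[n] w' = s k := by
    have := (hind n le_rfl).1
    rw [hk] at this
    exact (hinj this).symm
  have hdn : dn a b n w' ≠ 0 := by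
    unfold dn
    rw [Finset.prod_ne_zero_iff]
    intro i hi
    rw [Finset.mem_range] at hi
    rw [dg_ne (hFi i hi)]
    intro h0
    apply hnT i hi
    rw [hT, (hind i hi.le).1]
    exact Or.inr ⟨_, h0, rfl⟩
  obtain ⟨ρ, hρ, hR⟩ := rpush hlf hD hr hw' hFi hdn
  have hcone := rcn isOpen_ball hR (mem_ball_self hρ)
  rw [hgk] at hcone
  exact hs k (rs_zero_of_cone hβ hcone)

end Pool.Agent.H84.TE
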