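import Pool.Agent.H84.TE.RLH
import Pool.Agent.H84.TE.ROM
import Pool.Agent.H84.TE.RBT
import Pool.Agent.H84.TE.RLA
import Pool.Agent.H91.CS.TINT

/-!
# Module RFC: good points and infinitely many residues are contradictory

PROOF. `q = qs β P` is measurable (`qs_meas`) and integrable over discs (`qs_ball`, H35/EX/SerA). By `hG` and `rlh` there is `z` with `q z ≠ 0`, `GPt a b δ M z` and the conclusion of `rlh` at `z` (otherwise almost every `z` would satisfy `q z ≠ 0 → ¬ GPt`): `y, r, φ`, `D = ball y r`. Let `s k = x (k + N)`, `rs β P (s k) ≠ 0` for all `k` (`hr`), injective. `rb3` for `x` shifted by `N`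
(`B` shifted too): `u`. A cluster point of `k ↦ s k`. `hom`: for `n`, `w ∈ D`, `i`: if `(rat a b)^[n] w = u i` then `(rat a b)^[j + n] w = (rat a b)^[j] (u i)` is a cluster point of `s`, against `rom`. Let `z' = (gg a b)^[φ 0] z ∈ D`. `rla`: `C` with `‖dn a b n z'‖ ≤ C * (1 + ‖(gg a b)^[n] z'‖ ^ 2)` for all `n` with `Fi a b n z'`. For `n = φ k - φ 0` (`φ` strictly monotone):
`Fi a b n z'` (from `Fi a b (φ k) z`, `iterate_add_apply`), `(gg a b)^[n] z' = (gg a b)^[φ k] z ∈ ball y r`, bounded by `‖y‖ + r`, and `dn a b (φ k) z = dn a b (φ 0) z * dn a b n z'` (`Finset.prod_range_add`), so `‖dn a b n z'‖ = ‖dn a b (φ k) z‖ / ‖dn a b (φ 0) z‖ → ∞` (`dn a b (φ 0) z ≠ 0` because `dn a b (φ k) z ≠ 0` for large `k`): a contradiction.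
-/

set_option autoImplicit false

open Filter Topology Polynomial Metric Set MeasureTheory

namespace Pool.Agent.H84.TE

open Pool.Agent.H44.Fatou Pool.Agent.H61.TT Pool.Agent.H35.EX Pool.Agent.H91.CE Pool.Agent.H91.CS
open Pool.Agent.H32.BT

theorem rfc {d : ℕ} {a b : Polynomial ℂ} (h : RatD d a b)
    (hni : ¬ IsCrit (rat a b) OnePoint.infty) (hcb : ∀ c, (ww a b).eval c = 0 → b.eval c ≠ 0)
    {β P : ℕ → ℂ} (hβ : Summable fun k => ‖β k‖) (hlf : LF a b (qs β P))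
    (hG : ∃ δ : ℝ, 0 < δ ∧ ∃ M : ℝ, ¬ ∀ᵐ z : ℂ, qs β P z ≠ 0 → ¬ GPt a b δ M z)
    {x B : ℕ → ℂ} (hx : Function.Injective x)
    (hB : ∀ k, B (k + 1) * dg a b (x (k + 1)) = B k) (hB0 : ∀ k, B k ≠ 0)
    (hBt : Tendsto B atTop (𝓝 0)) (hr : ∀ᶠ k in atTop, rs β P (x k) ≠ 0) : False := by
  obtain ⟨δ, hδ, M, hG⟩ := hG
  have hae := rlh hlf (qs_meas β P) (fun x r => qs_ball hβ x r) hδ M
  have hex : ∃ z : ℂ, ∃ (y : ℂ) (r : ℝ) (φ : ℕ → ℕ), 0 < r ∧ StrictMono φ ∧
      RHol (qs β P) (ball y r) ∧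
      (∀ k, (gg a b)^[φ k] z ∈ ball y r ∧ Fi a b (φ k) z) ∧
      Tendsto (fun k => ‖dn a b (φ k) z‖) atTop atTop := by
    by_contra hcon
    push Not at hcon
    apply hG
    filter_upwards [hae] with z hz hq hzG
    obtain ⟨y, r, φ, h2, h3, h4, h5, h6⟩ := hz hq hzG
    exact hcon z y r φ h2 h3 h4 h5 h6
  obtain ⟨z, y, r, φ, hr0, hφ, hR, hk, hinf⟩ := hex
  -- three omitted points
  obtain ⟨N, hN⟩ := eventually_atTop.1 hr
  obtain ⟨u, hu, huc⟩ := rb3 h (x := fun k => x (k + N)) (B := fun k => B (k + N))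
    (fun c _ hc => by
      induction c using OnePoint.rec with
      | infty => exact absurd hc hni
      | coe w =>
        refine ⟨w, rfl, hcb w ?_⟩
        have h1 := crit_coe hc
        have h2 : Wr a b = ww a b := rfl
        rw [h2] at h1
        exact h1)
    (fun k => by
      have e : k + 1 + N = k + N + 1 := by omega
      rw [e]
      exact hB (k + N))
    (fun k => hB0 _) (hBt.comp (tendsto_add_atTop_nat N))
  have hom : ∀ n, ∀ w ∈ ball y r, ∀ i, (rat a b)^[n] (w : OnePoint ℂ) ≠ u i := by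
    intro n w hw i heq
    obtain ⟨j, hj⟩ := huc i
    refine rom h hβ hlf isOpen_ball hR (s := fun k => x (k + N))
      (fun i j hij => by have := hx hij; omega) (fun k => hN _ (by omega)) hj (j + n) hw ?_
    rw [Function.iterate_add_apply, heq]
  obtain ⟨C, hC⟩ := rla h.cop hu hom (hk 0).1
  -- the derivative at the first return is not zero
  have hne : dn a b (φ 0) z ≠ 0 := by
    obtain ⟨k, hk1⟩ := (hinf.eventually (eventually_ge_atTop 1)).exists
    have h1 : φ 0 ≤ φ k := hφ.monotone (Nat.zero_le k)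
    intro h0
    have h2 : dn a b (φ k) z = 0 := by
      unfold dn at h0 ⊢
      rw [Finset.prod_eq_zero_iff] at h0 ⊢
      obtain ⟨i, hi, hi0⟩ := h0
      exact ⟨i, Finset.mem_range.2 (lt_of_lt_of_le (Finset.mem_range.1 hi) h1), hi0⟩
    rw [h2, norm_zero] at hk1
    linarith
  have hpos : 0 < ‖dn a b (φ 0) z‖ := norm_pos_iff.2 hne
  obtain ⟨L, hL⟩ : ∃ L : ℝ, L = |C| * (1 + (‖y‖ + r) ^ 2) + 1 := ⟨_, rfl⟩
  obtain ⟨k, hk1⟩ := (hinf.eventually (eventually_ge_atTop (L * ‖dn a b (φ 0) z‖))).exists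
  have hle : φ 0 ≤ φ k := hφ.monotone (Nat.zero_le k)
  obtain ⟨n, hn⟩ : ∃ n, φ k = φ 0 + n := ⟨φ k - φ 0, by omega⟩
  have hit : ∀ j, (gg a b)^[j] ((gg a b)^[φ 0] z) = (gg a b)^[φ 0 + j] z := by
    intro j
    rw [← Function.iterate_add_apply, add_comm]
  have hFi : Fi a b n ((gg a b)^[φ 0] z) := by
    intro j hj
    rw [hit]
    exact (hk k).2 (φ 0 + j) (by omega)
  have h4 := hC n hFi
  rw [hit, ← hn] at h4
  have h1 : ‖(gg a b)^[φ k] z‖ ≤ ‖y‖ + r := by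
    have h1 := (hk k).1
    rw [mem_ball_iff_norm] at h1
    have h2 := norm_add_le ((gg a b)^[φ k] z - y) y
    rw [sub_add_cancel] at h2
    linarith
  have h5 : dn a b (φ k) z = dn a b (φ 0) z * dn a b n ((gg a b)^[φ 0] z) := by
    unfold dn
    rw [hn, Finset.prod_range_add]
    congr 1
    refine Finset.prod_congr rfl fun j _ => ?_
    rw [hit]
  rw [h5, norm_mul, mul_comm] at hk1
  have h6 := le_of_mul_le_mul_left hk1 hpos
  have h7 : ‖(gg a b)^[φ k] z‖ ^ 2 ≤ (‖y‖ + r) ^ 2 := pow_le_pow_left₀ (norm_nonneg _) h1 2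
  have h8 : C * (1 + ‖(gg a b)^[φ k] z‖ ^ 2) ≤ |C| * (1 + (‖y‖ + r) ^ 2) := by
    calc C * (1 + ‖(gg a b)^[φ k] z‖ ^ 2) ≤ |C| * (1 + ‖(gg a b)^[φ k] z‖ ^ 2) :=
          mul_le_mul_of_nonneg_right (le_abs_self C) (by positivity)
      _ ≤ |C| * (1 + (‖y‖ + r) ^ 2) := mul_le_mul_of_nonneg_left (by linarith) (abs_nonneg C)
  linarith

end Pool.Agent.H84.TE
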