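import Pool.Agent.H91.CS.TBase

/-!
# THEOREM E (one summable critical point): definitions

`JSS`: the orbits of finitely many critical points `p i 0` of multiplicity `m i` with SUMMABLE inverse chordal derivatives (compare
`JS`, H91/CS/TDefs: exponential growth). The orbits may be unbounded (the Julia set may be the sphere), orbit relations
`p i k = p j l` are allowed for `k, l ≥ 1`, the orbits may be preperiodic.
`GPt`: for infinitely many `n` there is a univalent branch of `f^(-n)` on a disc of fixed radius about `f^n(z)`, `|f^n(z)| ≤ M`,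
with derivative as small as we like.
`RHol q D`: on `D` the function `q` is the product of a positive function and of a holomorphic function without zeros.
-/

set_option autoImplicit false

open Filter Topology Polynomial Metric Set MeasureTheory

namespace Pool.Agent.H84.TE

open Pool.Agent.H44.Fatou Pool.Agent.H61.TT Pool.Agent.H35.EX Pool.Agent.H91.CS

/-- the orbits of finitely many critical points `p i 0` of multiplicity `m i` with summable inverse chordal derivatives -/
structure JSS (d : ℕ) (a b : Polynomial ℂ) {ι : Type} (m : ι → ℕ) (p B : ι → ℕ → ℂ) : Prop where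
  orb : ∀ i k, gg a b (p i k) = p i (k + 1)
  bb : ∀ i k, b.eval (p i k) ≠ 0
  inj : Function.Injective fun i => p i 0
  mult : ∀ i, (ww a b).rootMultiplicity (p i 0) = m i
  hm : ∀ i, 1 ≤ m i
  B0 : ∀ i, B i 0 = 1
  hB : ∀ i k, B i (k + 1) * dg a b (p i (k + 1)) = B i k
  sm : ∀ i, Summable fun k => ‖B i k‖ * (1 + ‖p i (k + 1)‖ ^ 2)

/-- for infinitely many `n` there is a branch of the inverse of the `n`-th iterate on the disc of radius `δ` about
`f^n(z)` which maps `f^n(z)` to `z`, and its derivative is as small as we like -/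
def GPt (a b : Polynomial ℂ) (δ M : ℝ) (z : ℂ) : Prop :=
  ∀ ε : ℝ, 0 < ε → ∃ᶠ n : ℕ in atTop, ‖(gg a b)^[n] z‖ ≤ M ∧ ∃ g : ℂ → ℂ,
    DifferentiableOn ℂ g (ball ((gg a b)^[n] z) δ) ∧ g ((gg a b)^[n] z) = z ∧
    (∀ w ∈ ball ((gg a b)^[n] z) δ, Fi a b n (g w) ∧ (gg a b)^[n] (g w) = w) ∧
    ‖deriv g ((gg a b)^[n] z)‖ ≤ ε

/-- on `D` the function `q` is the product of a positive function and of a holomorphic function without zeros -/
def RHol (q : ℂ → ℂ) (D : Set ℂ) : Prop :=
  ∃ H : ℂ → ℂ, DifferentiableOn ℂ H D ∧ (∀ w ∈ D, H w ≠ 0) ∧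
    ∀ᵐ w : ℂ, w ∈ D → ∃ R : ℝ, 0 < R ∧ q w = (R : ℂ) * H w

end Pool.Agent.H84.TE
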