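import Pool.Agent.H84.TE.EDefs
import Pool.Agent.H91.CS.TPOL

/-!
# Module ESUM (copy of H91/CS/TSUM for summable orbits): elementary consequences of JS

PROOF. `jss_B`: induction, `B0`, `hB`. `jss_dg`: `hB`, `jss_B`. `jss_P`: `hs.grow i`, geometric series. `jss_eta`: `eta_bound`, `‖gg a b (p i k)‖ = ‖p i (k + 1)‖`, `jss_P`. `jss_ww`: `rootMultiplicity ≥ 1` (`hs.mult`, `hs.hm`; `ww_ne`). `jss_ne`: `jss_ww`, `jss_dg`, `dg_ne`.
`jss_c`: `ww a b = (X - C (p j 0)) ^ m j * η` (`pow_rootMultiplicity_dvd`), `η.natDegree ≤ 2 * d` (see `ser_tq` in H91/CE/SERT); `‖B i k‖ / ‖p i (k+1) - p j 0‖ ^ m j = ‖B i (k+1) * (η.eval (p i (k+1)) / b.eval (p i (k+1)) ^ 2)‖` since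
`B i k = B i (k+1) * dg a b (p i (k+1))`; `jss_eta` shifted by one.
-/

set_option autoImplicit false

open Filter Topology Polynomial Metric Set MeasureTheory

namespace Pool.Agent.H84.TE

open Pool.Agent.H91.CS Pool.Agent.H44.Fatou Pool.Agent.H61.TT Pool.Agent.H35.EX Pool.Agent.H91.CE

variable {d : ℕ} {a b : Polynomial ℂ} {ι : Type} {m : ι → ℕ} {p B : ι → ℕ → ℂ}

theorem jss_B (hs : JSS d a b m p B) (i : ι) (k : ℕ) : B i k ≠ 0 := by
  induction k with
  | zero =>
    rw [hs.B0]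
    exact one_ne_zero
  | succ k ih =>
    rw [← hs.hB i k] at ih
    exact left_ne_zero_of_mul ih

theorem jss_dg (hs : JSS d a b m p B) (i : ι) (k : ℕ) : dg a b (p i (k + 1)) ≠ 0 := by
  have h := jss_B hs i k
  rw [← hs.hB i k] at h
  exact right_ne_zero_of_mul h

theorem jss_P (hs : JSS d a b m p B) (i : ι) :
    Summable fun k => ‖B i k‖ * (1 + ‖p i (k + 1)‖ ^ 2) := by
  exact hs.sm i

theorem jss_eta (h : RatD d a b) (hs : JSS d a b m p B) {η : Polynomial ℂ}
    (hη : η.natDegree ≤ 2 * d) (i : ι) :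
    Summable fun k => B i k * (η.eval (p i k) / b.eval (p i k) ^ 2) := by
  obtain ⟨K, hK0, hK⟩ := eta_bound h hη
  refine Summable.of_norm_bounded (g := fun k => K * (‖B i k‖ * (1 + ‖p i (k + 1)‖ ^ 2)))
    ((jss_P hs i).mul_left K) fun k => ?_
  have h1 := hK (p i k) (hs.bb i k)
  rw [hs.orb i k] at h1
  rw [norm_mul]
  calc ‖B i k‖ * ‖η.eval (p i k) / b.eval (p i k) ^ 2‖
      ≤ ‖B i k‖ * (K * (1 + ‖p i (k + 1)‖ ^ 2)) := mul_le_mul_of_nonneg_left h1 (norm_nonneg _)
    _ = _ := by ring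

theorem jss_ww (h : RatD d a b) (hs : JSS d a b m p B) (i : ι) : (ww a b).eval (p i 0) = 0 := by
  have h1 := (rootMultiplicity_pos (ww_ne h)).1 (by
    rw [hs.mult i]
    exact hs.hm i : 0 < (ww a b).rootMultiplicity (p i 0))
  exact h1

theorem jss_ne (h : RatD d a b) (hs : JSS d a b m p B) (i j : ι) (k : ℕ) :
    p i (k + 1) ≠ p j 0 := by
  intro hk
  have h1 := (dg_ne (hs.bb i (k + 1))).1 (jss_dg hs i k)
  rw [hk] at h1
  exact h1 (jss_ww h hs j)

theorem jss_c (h : RatD d a b) (hs : JSS d a b m p B) (i j : ι) :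
    Summable fun k => ‖B i k‖ / ‖p i (k + 1) - p j 0‖ ^ m j := by
  have hdeg : (ww a b).natDegree ≤ 2 * d := by
    have had : a.natDegree ≤ d := by
      rw [← h.deg]
      exact le_max_left _ _
    have hbd : b.natDegree ≤ d := by
      rw [← h.deg]
      exact le_max_right _ _
    have h1 := natDegree_derivative_le a
    have h2 := natDegree_derivative_le b
    unfold ww
    refine (natDegree_sub_le _ _).trans (max_le ?_ ?_)
    · exact natDegree_mul_le.trans (by omega)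
    · exact natDegree_mul_le.trans (by omega)
  obtain ⟨η, hη⟩ := pow_rootMultiplicity_dvd (ww a b) (p j 0)
  rw [hs.mult j] at hη
  have hηd : η.natDegree ≤ 2 * d :=
    (natDegree_le_of_dvd (Dvd.intro_left _ hη.symm) (ww_ne h)).trans hdeg
  have h1 := ((summable_nat_add_iff 1).2 (jss_eta h hs hηd i)).norm
  refine h1.congr fun k => ?_
  have h2 : (ww a b).eval (p i (k + 1)) =
      (p i (k + 1) - p j 0) ^ m j * η.eval (p i (k + 1)) := by
    conv_lhs => rw [hη]
    rw [eval_mul, eval_pow, eval_sub, eval_X, eval_C]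
  have h3 : p i (k + 1) - p j 0 ≠ 0 := sub_ne_zero.2 (jss_ne h hs i j k)
  have h4 := hs.bb i (k + 1)
  have h5 : B i k / (p i (k + 1) - p j 0) ^ m j =
      B i (k + 1) * (η.eval (p i (k + 1)) / b.eval (p i (k + 1)) ^ 2) := by
    rw [← hs.hB i k]
    change B i (k + 1) * ((ww a b).eval (p i (k + 1)) / b.eval (p i (k + 1)) ^ 2) /
      (p i (k + 1) - p j 0) ^ m j = _
    rw [h2]
    field_simp
  rw [← h5, norm_div, norm_pow]

end Pool.Agent.H84.TE
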