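import Pool.Agent.H91.CS.TPR
import Pool.Agent.H84.TE.ESUM
import Pool.Agent.H91.CS.TNZA

/-!
# Module ENZ (copy of H91/CS/TNZ for summable orbits): the Taylor coefficients at a critical point are not all zero

PROOF. `c = p i0 0`, `n = m i0`, `ww a b = (X - C c) ^ n * u`, `u.eval c ≠ 0` (`exists_eq_pow_rootMultiplicity_mul_and_not_dvd`, `ww_ne`), `β = bt e α B`, `P = pt' e p`. `P k ≠ c`: `jss_ne`. Summability: `sum_e` for `F (i, k) = ‖α i * B i k‖ / ‖p i (k+1) - c‖ ^ n`, `jss_c`. For `l < n` let `η = (X - C c) ^ l * u`, `natDegree ≤ 2 * d`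
(divides `ww`, see `ser_tq` in H91/CE/SERT). At `z = p i (k + 1)`: `B i (k+1) * (η z / b z ^ 2) = B i (k+1) * dg z / (z - c) ^ (n - l) = B i k / (z - c) ^ (n - l)`. At `z = p i 0`, `i ≠ i0`: `u z = 0` (`ww z = 0` by `jss_ww`, `z ≠ c` by `hs.inj`). So `hvan` for `η` (`Summable.tsum_eq_zero_add`, `jss_eta`, `sum_e`):
`Λ η + α i0 * (η.eval c / b.eval c ^ 2) + tq β P c (n - l - 1) = 0`. If all `tq β P c l`, `l < n`, vanish: take `g` from `interp`, `η0 = ∑ l, C (g l) * ((X - C c) ^ l * u)`: by linearity `Λ η0 + α i0 * (η0.eval c / b.eval c ^ 2) = 0`. `η0.eval c = b.eval c ^ 2` (`n ≥ 1`), and `Λ η0 = 0` by `hΛ`: at `i0` with `e = 1`; at `i ≠ i0` with `e = 0`: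
`(X - C (p i 0)) ^ m i` divides `ww a b`, is coprime to `(X - C c) ^ n`, so divides `u`. So `α i0 = 0`, a contradiction.
-/

set_option autoImplicit false

open Filter Topology Polynomial Metric Set MeasureTheory

namespace Pool.Agent.H84.TE

open Pool.Agent.H91.CS Pool.Agent.H44.Fatou Pool.Agent.H61.TT Pool.Agent.H35.EX Pool.Agent.H91.CE

variable {d : ℕ} {a b : Polynomial ℂ} {ι : Type} [Fintype ι] {m : ι → ℕ} {p B : ι → ℕ → ℂ}


theorem jss_tq (h : RatD d a b) (hs : JSS d a b m p B) (e : ℕ ≃ ι × ℕ) {α : ι → ℂ}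
    {Λ : Polynomial ℂ →ₗ[ℂ] ℂ} (hΛ : Loc b m p Λ)
    (hvan : ∀ η : Polynomial ℂ, η.natDegree ≤ 2 * d →
      Λ η + ∑ i, α i * ∑' k, B i k * (η.eval (p i k) / b.eval (p i k) ^ 2) = 0) {i0 : ι}
    (hi : α i0 ≠ 0) : (∀ n, pt' e p n ≠ p i0 0) ∧
      (Summable fun n => ‖bt e α B n‖ / ‖pt' e p n - p i0 0‖ ^ m i0) ∧
      ∃ l < m i0, tq (bt e α B) (pt' e p) (p i0 0) l ≠ 0 := by
  classical
  have hne : ∀ i k, p i (k + 1) ≠ p i0 0 := fun i k => jss_ne h hs i i0 k
  refine ⟨fun n => hne _ _, ?_, ?_⟩
  · have h1 : ∀ i, Summable fun k => ‖α i * B i k‖ / ‖p i (k + 1) - p i0 0‖ ^ m i0 := by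
      intro i
      refine ((jss_c h hs i i0).mul_left ‖α i‖).congr fun k => ?_
      rw [norm_mul, mul_div_assoc]
    have h2 := (sum_e e (F := fun x : ι × ℕ =>
      ‖α x.1 * B x.1 x.2‖ / ‖p x.1 (x.2 + 1) - p i0 0‖ ^ m i0) h1).1
    exact h2
  · by_contra hcon
    push Not at hcon
    set c := p i0 0 with hc
    set n := m i0 with hn
    have hn1 : 1 ≤ n := hs.hm i0
    have hww0 : ww a b ≠ 0 := ww_ne h
    have hwdeg : (ww a b).natDegree ≤ 2 * d := by
      have had : a.natDegree ≤ d := by
        rw [← h.deg]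
        exact le_max_left _ _
      have hbd : b.natDegree ≤ d := by
        rw [← h.deg]
        exact le_max_right _ _
      have h1 := natDegree_derivative_le a
      have h2 := natDegree_derivative_le b
      unfold ww
      refine (natDegree_sub_le _ _).trans (max_le ?_ ?_)
      · exact natDegree_mul_le.trans (by omega)
      · exact natDegree_mul_le.trans (by omega)
    obtain ⟨u, hu, hndvd⟩ := exists_eq_pow_rootMultiplicity_mul_and_not_dvd (ww a b) hww0 c
    have hmult : rootMultiplicity c (ww a b) = n := hs.mult i0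
    rw [hmult] at hu
    have hu0 : u.eval c ≠ 0 := fun h1 => hndvd (dvd_iff_isRoot.2 h1)
    have hbc : b.eval c ≠ 0 := hs.bb i0 0
    -- the polynomials `(X - c) ^ l * u`
    have hηd : ∀ l < n, ((X - C c) ^ l * u).natDegree ≤ 2 * d := by
      intro l hl
      have h1 : (X - C c) ^ l * u ∣ ww a b := by
        rw [hu]
        exact mul_dvd_mul_right (pow_dvd_pow _ hl.le) u
      exact (natDegree_le_of_dvd h1 hww0).trans hwdeg
    have hwev : ∀ z : ℂ, (ww a b).eval z = (z - c) ^ n * u.eval z := by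
      intro z
      conv_lhs => rw [hu]
      rw [eval_mul, eval_pow, eval_sub, eval_X, eval_C]
    have hui : ∀ i, i ≠ i0 → u.eval (p i 0) = 0 := by
      intro i hii
      have h1 := jss_ww h hs i
      rw [hwev] at h1
      have h2 : p i 0 - c ≠ 0 := by
        intro h3
        exact hii (hs.inj (sub_eq_zero.1 h3))
      exact (mul_eq_zero.1 h1).resolve_left (pow_ne_zero _ h2)
    have hterm : ∀ l < n, ∀ i k, B i (k + 1) * (((X - C c) ^ l * u).eval (p i (k + 1)) /
        b.eval (p i (k + 1)) ^ 2) = B i k / (p i (k + 1) - c) ^ (n - l) := by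
      intro l hl i k
      have h2 : p i (k + 1) - c ≠ 0 := sub_ne_zero.2 (hne i k)
      have h3 := hs.bb i (k + 1)
      rw [← hs.hB i k]
      unfold Pool.Agent.H61.TT.dg
      rw [hwev, eval_mul, eval_pow, eval_sub, eval_X, eval_C]
      have h4 : (p i (k + 1) - c) ^ n = (p i (k + 1) - c) ^ l * (p i (k + 1) - c) ^ (n - l) := by
        rw [← pow_add, Nat.add_sub_cancel' hl.le]
      rw [h4]
      field_simp
    have hsum : ∀ l < n, ∀ i, Summable fun k => B i k / (p i (k + 1) - c) ^ (n - l) := by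
      intro l hl i
      have h1 := (summable_nat_add_iff 1).2 (jss_eta h hs (hηd l hl) i)
      exact h1.congr fun k => hterm l hl i k
    have hkey : ∀ l < n, Λ ((X - C c) ^ l * u) +
        α i0 * (((X - C c) ^ l * u).eval c / b.eval c ^ 2) = 0 := by
      intro l hl
      have h1 := hvan _ (hηd l hl)
      have h2 : ∀ i, ∑' k, B i k * (((X - C c) ^ l * u).eval (p i k) / b.eval (p i k) ^ 2) =
          ((X - C c) ^ l * u).eval (p i 0) / b.eval (p i 0) ^ 2 +
            ∑' k, B i k / (p i (k + 1) - c) ^ (n - l) := by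
        intro i
        rw [(jss_eta h hs (hηd l hl) i).tsum_eq_zero_add, hs.B0, one_mul]
        congr 1
        exact tsum_congr fun k => hterm l hl i k
      simp_rw [h2, mul_add] at h1
      rw [Finset.sum_add_distrib] at h1
      have h3 : ∑ i, α i * (((X - C c) ^ l * u).eval (p i 0) / b.eval (p i 0) ^ 2) =
          α i0 * (((X - C c) ^ l * u).eval c / b.eval c ^ 2) := by
        rw [Finset.sum_eq_single i0]
        · intro i _ hii
          rw [eval_mul, hui i hii]
          simp
        · intro h4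
          exact absurd (Finset.mem_univ _) h4
      have h4 : ∑ i, α i * ∑' k, B i k / (p i (k + 1) - c) ^ (n - l) =
          tq (bt e α B) (pt' e p) c (n - l - 1) := by
        have h5 : ∀ i, Summable fun k => α i * B i k / (p i (k + 1) - c) ^ (n - l) := by
          intro i
          refine ((hsum l hl i).mul_left (α i)).congr fun k => ?_
          rw [mul_div_assoc]
        have h6 := (sum_e e (F := fun x : ι × ℕ =>
          α x.1 * B x.1 x.2 / (p x.1 (x.2 + 1) - c) ^ (n - l)) h5).2
        have h7 : n - l - 1 + 1 = n - l := by omega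
        unfold tq bt pt'
        rw [h7]
        rw [h6]
        refine Finset.sum_congr rfl fun i _ => ?_
        rw [← tsum_mul_left]
        refine tsum_congr fun k => ?_
        rw [mul_div_assoc]
      rw [h3, h4, hcon (n - l - 1) (by omega), add_zero] at h1
      exact h1
    obtain ⟨g, hg⟩ := interp (b := b) hu0 n
    set η0 := ∑ l ∈ Finset.range n, C (g l) * ((X - C c) ^ l * u) with hη0
    have hΛ0 : Λ η0 = 0 := by
      apply hΛ
      intro i
      by_cases hii : i = i0
      · subst hii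
        refine ⟨1, ?_⟩
        rw [C_1, one_mul]
        exact hg
      · refine ⟨0, ?_⟩
        rw [C_0, zero_mul, sub_zero]
        have h1 : (X - C (p i 0)) ^ m i ∣ ww a b := by
          rw [← hs.mult i]
          exact pow_rootMultiplicity_dvd _ _
        rw [hu] at h1
        have h2 : IsCoprime ((X - C (p i 0)) ^ m i) ((X - C c) ^ n) := by
          apply IsCoprime.pow
          apply isCoprime_X_sub_C_of_isUnit_sub
          apply IsUnit.mk0
          intro h3
          exact hii (hs.inj (sub_eq_zero.1 h3))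
        have h3 : (X - C (p i 0)) ^ m i ∣ u := h2.dvd_of_dvd_mul_left h1
        refine Finset.dvd_sum fun l _ => ?_
        exact Dvd.dvd.mul_left (Dvd.dvd.mul_left h3 _) _
    have hΛs : Λ η0 = ∑ l ∈ Finset.range n, g l * Λ ((X - C c) ^ l * u) := by
      rw [hη0, map_sum]
      refine Finset.sum_congr rfl fun l _ => ?_
      rw [← smul_eq_C_mul, map_smul, smul_eq_mul]
    have hev : η0.eval c = b.eval c ^ 2 := by
      have h1 : (X - C c) ∣ η0 - b ^ 2 := by
        refine dvd_trans ?_ hg
        exact dvd_pow_self _ (by omega)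
      have h2 := dvd_iff_isRoot.1 h1
      rw [IsRoot.def, eval_sub, eval_pow] at h2
      exact sub_eq_zero.1 h2
    have hevs : η0.eval c = ∑ l ∈ Finset.range n, g l * ((X - C c) ^ l * u).eval c := by
      rw [hη0, eval_finsetSum]
      refine Finset.sum_congr rfl fun l _ => ?_
      rw [eval_mul, eval_C]
    have hfin : Λ η0 + α i0 * (η0.eval c / b.eval c ^ 2) = 0 := by
      rw [hΛs, hevs, Finset.sum_div, Finset.mul_sum, ← Finset.sum_add_distrib]
      refine Finset.sum_eq_zero fun l hl => ?_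
      have h1 := hkey l (Finset.mem_range.1 hl)
      linear_combination (g l) * h1
    rw [hΛ0, hev, zero_add, div_self (pow_ne_zero 2 hbc), mul_one] at hfin
    exact hi hfin

end Pool.Agent.H84.TE
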