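import Pool.Agent.H91.CS.TPR
import Pool.Agent.H84.TE.ESUM
import Pool.Agent.H91.CS.TORD

/-!
# Module ES01 (copy of H91/CS/TS01 for summable orbits): the first two moments vanish

PROOF. `jss_sm`: `sum_e` with `F (i, k) = ‖α i * B i k‖ * (1 + ‖p i (k+1)‖ ^ 2)` (`jss_P`). `jss_sum0`: `sum_e`, then `hvan` for `η = b ^ 2` (`natDegree ≤ 2 d`), `b.eval (p i k) ≠ 0` (`hs.bb`), `Λ (b ^ 2) = 0` by `hΛ` with `e = 1`. `jss_sum1`: `η = a * b`: `(a * b).eval (p i k) / b.eval (p i k) ^ 2 = gg a b (p i k) = p i (k + 1)`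
(`hs.orb`), `Λ (a * b) = 0` by `hΛ` with `e = gg a b (p i 0)`: `a * b - C v * b ^ 2 = (a - C v * b) * b`, `ord_fib` and `hs.mult`. Summability: `jss_eta`.
-/

set_option autoImplicit false

open Filter Topology Polynomial Metric Set MeasureTheory

namespace Pool.Agent.H84.TE

open Pool.Agent.H91.CS Pool.Agent.H44.Fatou Pool.Agent.H61.TT Pool.Agent.H35.EX Pool.Agent.H91.CE

variable {d : ℕ} {a b : Polynomial ℂ} {ι : Type} [Fintype ι] {m : ι → ℕ} {p B : ι → ℕ → ℂ}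


theorem jss_sm (hs : JSS d a b m p B) (e : ℕ ≃ ι × ℕ) (α : ι → ℂ) :
    Summable fun n => ‖bt e α B n‖ * (1 + ‖pt' e p n‖ ^ 2) := by
  have h1 : ∀ i, Summable fun k => (fun x : ι × ℕ => ‖α x.1 * B x.1 x.2‖ *
      (1 + ‖p x.1 (x.2 + 1)‖ ^ 2)) (i, k) := by
    intro i
    refine ((jss_P hs i).mul_left ‖α i‖).congr fun k => ?_
    show ‖α i‖ * (‖B i k‖ * (1 + ‖p i (k + 1)‖ ^ 2)) =
      ‖α i * B i k‖ * (1 + ‖p i (k + 1)‖ ^ 2)
    rw [norm_mul, mul_assoc]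
  exact (sum_e e (F := fun x : ι × ℕ => ‖α x.1 * B x.1 x.2‖ *
      (1 + ‖p x.1 (x.2 + 1)‖ ^ 2)) h1).1

private theorem ts01_gen (h : RatD d a b) (hs : JSS d a b m p B) (e : ℕ ≃ ι × ℕ) {α : ι → ℂ}
    {Λ : Polynomial ℂ →ₗ[ℂ] ℂ}
    (hvan : ∀ η : Polynomial ℂ, η.natDegree ≤ 2 * d →
      Λ η + ∑ i, α i * ∑' k, B i k * (η.eval (p i k) / b.eval (p i k) ^ 2) = 0)
    (η : Polynomial ℂ) (hη : η.natDegree ≤ 2 * d) (hL : Λ η = 0) (c : ι → ℕ → ℂ)
    (hc : ∀ i k, η.eval (p i k) / b.eval (p i k) ^ 2 = c i k) :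
    ∑' n, bt e α B n * c (e n).1 (e n).2 = 0 := by
  have h1 : ∀ i, Summable fun k => (fun x : ι × ℕ => α x.1 * B x.1 x.2 * c x.1 x.2) (i, k) := by
    intro i
    refine ((jss_eta h hs hη i).mul_left (α i)).congr fun k => ?_
    show α i * (B i k * (η.eval (p i k) / b.eval (p i k) ^ 2)) = α i * B i k * c i k
    rw [hc, mul_assoc]
  have h2 : ∑' n, bt e α B n * c (e n).1 (e n).2 = ∑ i, ∑' k, α i * B i k * c i k :=
    (sum_e e (F := fun x : ι × ℕ => α x.1 * B x.1 x.2 * c x.1 x.2) h1).2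
  have h3 := hvan η hη
  rw [hL, zero_add] at h3
  rw [h2, ← h3]
  refine Finset.sum_congr rfl fun i _ => ?_
  rw [← tsum_mul_left]
  refine tsum_congr fun k => ?_
  rw [hc, mul_assoc]

theorem jss_sum0 (h : RatD d a b) (hs : JSS d a b m p B) (e : ℕ ≃ ι × ℕ) {α : ι → ℂ}
    {Λ : Polynomial ℂ →ₗ[ℂ] ℂ} (hΛ : Loc b m p Λ)
    (hvan : ∀ η : Polynomial ℂ, η.natDegree ≤ 2 * d →
      Λ η + ∑ i, α i * ∑' k, B i k * (η.eval (p i k) / b.eval (p i k) ^ 2) = 0) :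
    ∑' n, bt e α B n = 0 := by
  have hb : b.natDegree ≤ d := by
    rw [← h.deg]
    exact le_max_right _ _
  have h1 := ts01_gen h hs e hvan (b ^ 2)
    (natDegree_pow_le.trans (Nat.mul_le_mul_left 2 hb))
    (hΛ _ fun i => ⟨1, by rw [C_1, one_mul, sub_self]; exact dvd_zero _⟩)
    (fun _ _ => 1)
    (fun i k => by rw [eval_pow]; exact div_self (pow_ne_zero 2 (hs.bb i k)))
  rw [← h1]
  exact tsum_congr fun n => (mul_one _).symm

theorem jss_sum1 (h : RatD d a b) (hs : JSS d a b m p B) (e : ℕ ≃ ι × ℕ) {α : ι → ℂ}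
    {Λ : Polynomial ℂ →ₗ[ℂ] ℂ} (hΛ : Loc b m p Λ)
    (hvan : ∀ η : Polynomial ℂ, η.natDegree ≤ 2 * d →
      Λ η + ∑ i, α i * ∑' k, B i k * (η.eval (p i k) / b.eval (p i k) ^ 2) = 0) :
    ∑' n, bt e α B n * pt' e p n = 0 := by
  have ha : a.natDegree ≤ d := by
    rw [← h.deg]
    exact le_max_left _ _
  have hb : b.natDegree ≤ d := by
    rw [← h.deg]
    exact le_max_right _ _
  refine ts01_gen h hs e hvan (a * b) (natDegree_mul_le.trans (by omega)) (hΛ _ fun i => ?_)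
    (fun i k => p i (k + 1)) (fun i k => ?_)
  · refine ⟨gg a b (p i 0), ?_⟩
    have h1 := ord_fib h (hs.bb i 0)
    rw [hs.mult i] at h1
    have h2 : a * b - C (gg a b (p i 0)) * b ^ 2 = (a - C (gg a b (p i 0)) * b) * b := by ring
    rw [h2]
    exact Dvd.dvd.mul_right ((pow_dvd_pow _ (Nat.le_succ _)).trans h1) _
  · show (a * b).eval (p i k) / b.eval (p i k) ^ 2 = p i (k + 1)
    rw [← hs.orb i k, eval_mul]
    unfold gg
    have h1 := hs.bb i k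
    field_simp

end Pool.Agent.H84.TE
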