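import Pool.Agent.H84.TE.EDefs

/-!
# THEOREM E: Lebesgue points (definition)
-/

set_option autoImplicit false

open Filter Topology Polynomial Metric Set MeasureTheory

namespace Pool.Agent.H84.TE

/-- `z` is a Lebesgue point of `q` -/
def LebP (q : ℂ → ℂ) (z : ℂ) : Prop :=
  Tendsto (fun s : ℝ => (∫⁻ w in ball z s, ‖q w - q z‖ₑ) / ENNReal.ofReal (s ^ 2))
    (𝓝[>] 0) (𝓝 0)

end Pool.Agent.H84.TE
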