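import Pool.Agent.H84.TE.RDF
import Pool.Agent.H79.MZ.COV
import Pool.Agent.H44.DN.KOE

/-!
# Module RLB: mean convergence along univalent branches which contract to a Lebesgue point

PROOF. `koe` (H44/DN/KOE; `R = δ`, `ρ = δ / 2`): constants `C ≥ 1`, `N`; with `K = C * 2 ^ N`, `l = ‖deriv (g k) (x k)‖` (positive: `g k` is injective; `InjOn` on an open set gives `deriv ≠ 0`, see `not_injOn_of_deriv`, H91/Fatou/Crit, or the second inequality of `koe` and `deriv` not identically zero): on `ball (x k) (δ / 2)`: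
`l / K ≤ ‖deriv (g k) w‖`, `‖g k w - z‖ ≤ K * l * δ`. `cov` (H79/MZ/COV) on `U = ball (x k) (δ / 2)` with `F u = ‖q u - q z‖ₑ`: `∫⁻ u in g k '' U, F u = ∫⁻ w in U, ofReal (‖deriv (g k) w‖ ^ 2) * F (g k w) ≥ ofReal ((l / K) ^ 2) * ∫⁻ w in U, F (g k w)`, and
`g k '' U ⊆ ball z s`, `s = 2 * K * l * δ`. So `∫⁻ w in U, F (g k w) ≤ (∫⁻ u in ball z s, F u) / ofReal (s ^ 2) * ofReal (4 * K ^ 4 * δ ^ 2)`, and `s → 0+` as `k → ∞`: `LebP`. (For the finitely or infinitely many `k` nothing else is needed: `l > 0` always.)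
-/

set_option autoImplicit false

open Filter Topology Polynomial Metric Set MeasureTheory

namespace Pool.Agent.H84.TE

private theorem rlb_one {C : ℝ} {N : ℕ} (hC : 1 ≤ C)
    (hk : ∀ (g : ℂ → ℂ) (c : ℂ) (R : ℝ), 0 < R →
    DifferentiableOn ℂ g (ball c R) → InjOn g (ball c R) → ∀ ρ : ℝ, 0 ≤ ρ → ρ < R →
      ∀ z ∈ closedBall c ρ,
        ‖deriv g z‖ * (1 - ρ / R) ^ N ≤ C * ‖deriv g c‖ ∧
        ‖deriv g c‖ * (1 - ρ / R) ^ N ≤ C * ‖deriv g z‖ ∧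
        ‖g z - g c‖ * (1 - ρ / R) ^ N ≤ C * (‖deriv g c‖ * ‖z - c‖) ∧
        ‖deriv g c‖ * ‖z - c‖ ≤ C * ‖g z - g c‖)
    {q : ℂ → ℂ} {δ : ℝ} (hδ : 0 < δ) {x z : ℂ} {g : ℂ → ℂ} (hg : DifferentiableOn ℂ g (ball x δ))
    (hi : InjOn g (ball x δ)) (hx : g x = z) :
    0 < ‖deriv g x‖ ∧
    ∫⁻ w in ball x (δ / 2), ‖q (g w) - q z‖ₑ ≤
      (∫⁻ w in ball z (C * 2 ^ N * ‖deriv g x‖ * δ), ‖q w - q z‖ₑ) /
        ENNReal.ofReal ((C * 2 ^ N * ‖deriv g x‖ * δ) ^ 2) * ENNReal.ofReal ((C * 2 ^ N) ^ 4 * δ ^ 2) := by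
  have hC0 : 0 < C := by linarith
  obtain ⟨K, hK⟩ : ∃ K : ℝ, K = C * 2 ^ N := ⟨_, rfl⟩
  have hK0 : 0 < K := by rw [hK]; positivity
  obtain ⟨l, hl⟩ : ∃ l : ℝ, l = ‖deriv g x‖ := ⟨_, rfl⟩
  have h12 : (1 - δ / 2 / δ) = (1 / 2 : ℝ) := by
    field_simp
    norm_num
  have hkk : ∀ w ∈ closedBall x (δ / 2), l ≤ K * ‖deriv g w‖ ∧ ‖g w - z‖ ≤ K * (l * (δ / 2)) := by
    intro w hw
    obtain ⟨_, h2, h3, _⟩ := hk g x δ hδ hg hi (δ / 2) (by positivity) (by linarith) w hw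
    rw [h12, ← hl] at h2
    rw [h12, hx, ← hl] at h3
    rw [mem_closedBall, dist_eq_norm] at hw
    have hp : (1 / 2 : ℝ) ^ N * 2 ^ N = 1 := by
      rw [← mul_pow]
      norm_num
    constructor
    · calc l = l * (1 / 2 : ℝ) ^ N * 2 ^ N := by rw [mul_assoc, hp, mul_one]
        _ ≤ C * ‖deriv g w‖ * 2 ^ N := by gcongr
        _ = K * ‖deriv g w‖ := by rw [hK]; ring
    · calc ‖g w - z‖ = ‖g w - z‖ * (1 / 2 : ℝ) ^ N * 2 ^ N := by rw [mul_assoc, hp, mul_one]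
        _ ≤ C * (l * ‖w - x‖) * 2 ^ N := by gcongr
        _ ≤ C * (l * (δ / 2)) * 2 ^ N := by
            have : 0 ≤ l := by rw [hl]; exact norm_nonneg _
            gcongr
        _ = K * (l * (δ / 2)) := by rw [hK]; ring
  have hl0 : 0 < l := by
    by_contra hcon
    have h0 : l = 0 := le_antisymm (not_lt.1 hcon) (by rw [hl]; exact norm_nonneg _)
    have h1 : x + (δ / 2 : ℝ) ∈ closedBall x (δ / 2) := by
      rw [mem_closedBall, dist_eq_norm, add_sub_cancel_left, Complex.norm_real, Real.norm_eq_abs,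
        abs_of_pos (by positivity)]
    have h2 := (hkk _ h1).2
    rw [h0, zero_mul, mul_zero] at h2
    have h3 : g (x + (δ / 2 : ℝ)) = g x := by
      rw [hx]
      exact sub_eq_zero.1 (norm_le_zero_iff.1 h2)
    have h4 : x + (δ / 2 : ℝ) ∈ ball x δ := closedBall_subset_ball (by linarith) h1
    have h5 := hi h4 (mem_ball_self hδ) h3
    have h6 : ((δ / 2 : ℝ) : ℂ) = 0 := by
      have : x + ((δ / 2 : ℝ) : ℂ) = x + 0 := by rw [h5, add_zero]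
      exact add_left_cancel this
    have h7 : δ / 2 = 0 := by exact_mod_cast h6
    linarith
  rw [← hl, ← hK]
  refine ⟨hl0, ?_⟩
  have hcov := Pool.Agent.H79.MZ.cov (g := g) (U := ball x (δ / 2)) isOpen_ball
    (hg.mono (ball_subset_ball (by linarith))) (hi.mono (ball_subset_ball (by linarith)))
    (fun w => ‖q w - q z‖ₑ)
  have himg : g '' ball x (δ / 2) ⊆ ball z (K * l * δ) := by
    rintro _ ⟨w, hw, rfl⟩
    have h1 := (hkk w (ball_subset_closedBall hw)).2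
    rw [mem_ball, dist_eq_norm]
    refine lt_of_le_of_lt h1 ?_
    have : 0 < K * l * δ := by positivity
    nlinarith
  obtain ⟨I, hI⟩ : ∃ I, I = ∫⁻ w in ball x (δ / 2), ‖q (g w) - q z‖ₑ := ⟨_, rfl⟩
  obtain ⟨J, hJ⟩ : ∃ J, J = ∫⁻ w in ball z (K * l * δ), ‖q w - q z‖ₑ := ⟨_, rfl⟩
  have hIJ : ENNReal.ofReal ((l / K) ^ 2) * I ≤ J := by
    rw [hI, hJ, ← lintegral_const_mul' _ _ ENNReal.ofReal_ne_top]
    calc ∫⁻ w in ball x (δ / 2), ENNReal.ofReal ((l / K) ^ 2) * ‖q (g w) - q z‖ₑ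
        ≤ ∫⁻ w in ball x (δ / 2), ENNReal.ofReal (‖deriv g w‖ ^ 2) * ‖q (g w) - q z‖ₑ := by
          refine setLIntegral_mono' measurableSet_ball fun w hw => ?_
          gcongr
          rw [div_le_iff₀ hK0, mul_comm]
          exact (hkk w (ball_subset_closedBall hw)).1
      _ = ∫⁻ w in g '' ball x (δ / 2), ‖q w - q z‖ₑ := hcov.symm
      _ ≤ _ := lintegral_mono_set himg
  rw [← hI, ← hJ]
  have hs0 : 0 < (K * l * δ) ^ 2 := by positivity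
  have hsne : ENNReal.ofReal ((K * l * δ) ^ 2) ≠ 0 := by
    rw [Ne, ENNReal.ofReal_eq_zero, not_le]
    exact hs0
  have heq : J / ENNReal.ofReal ((K * l * δ) ^ 2) * ENNReal.ofReal (K ^ 4 * δ ^ 2) =
      J * ENNReal.ofReal (K ^ 4 * δ ^ 2) / ENNReal.ofReal ((K * l * δ) ^ 2) := by
    rw [div_eq_mul_inv, div_eq_mul_inv]
    ring
  rw [heq, ENNReal.le_div_iff_mul_le (Or.inl hsne) (Or.inl ENNReal.ofReal_ne_top)]
  have h3 : ENNReal.ofReal ((K * l * δ) ^ 2) =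
      ENNReal.ofReal ((l / K) ^ 2) * ENNReal.ofReal (K ^ 4 * δ ^ 2) := by
    rw [← ENNReal.ofReal_mul (by positivity)]
    congr 1
    field_simp
  rw [h3]
  calc I * (ENNReal.ofReal ((l / K) ^ 2) * ENNReal.ofReal (K ^ 4 * δ ^ 2))
      = (ENNReal.ofReal ((l / K) ^ 2) * I) * ENNReal.ofReal (K ^ 4 * δ ^ 2) := by ring
    _ ≤ J * ENNReal.ofReal (K ^ 4 * δ ^ 2) := by gcongr

theorem rlb {q : ℂ → ℂ} {z : ℂ} (hz : LebP q z) {δ : ℝ} (hδ : 0 < δ) {x : ℕ → ℂ}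
    {g : ℕ → ℂ → ℂ} (hg : ∀ k, DifferentiableOn ℂ (g k) (ball (x k) δ))
    (hi : ∀ k, InjOn (g k) (ball (x k) δ)) (hx : ∀ k, g k (x k) = z)
    (h0 : Tendsto (fun k => ‖deriv (g k) (x k)‖) atTop (𝓝 0)) :
    Tendsto (fun k => ∫⁻ w in ball (x k) (δ / 2), ‖q (g k w) - q z‖ₑ) atTop (𝓝 0) := by
  obtain ⟨C, N, hC, hk⟩ := Pool.Agent.H44.DN.koe
  have h1 := fun k => rlb_one (q := q) hC hk hδ (hg k) (hi k) (hx k)
  have hC0 : 0 < C := by linarith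
  have hs : Tendsto (fun k => C * 2 ^ N * ‖deriv (g k) (x k)‖ * δ) atTop (𝓝[>] 0) := by
    refine tendsto_nhdsWithin_iff.mpr ⟨?_, Eventually.of_forall fun k => ?_⟩
    · have := (h0.const_mul (C * 2 ^ N)).mul_const δ
      simpa using this
    · have := (h1 k).1
      exact mem_Ioi.mpr (by positivity)
  have h2 := hz.comp hs
  have h3 := ENNReal.Tendsto.mul_const (b := ENNReal.ofReal ((C * 2 ^ N) ^ 4 * δ ^ 2)) h2
    (Or.inr ENNReal.ofReal_ne_top)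
  rw [zero_mul] at h3
  exact tendsto_of_tendsto_of_tendsto_of_le_of_le tendsto_const_nhds h3 (fun k => zero_le)
    (fun k => (h1 k).2)

end Pool.Agent.H84.TE
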