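import Pool.Agent.H84.TE.RDF

/-!
# Module RLEB: almost every point is a Lebesgue point

PROOF. Mathlib's Lebesgue differentiation theorem: e.g. `IsUnifLocDoublingMeasure.vitaliFamily` / `Besicovitch.vitaliFamily volume` with `VitaliFamily.ae_tendsto_lintegral_enorm_sub_div` (or `..nnnorm_sub_div..`) for locally integrable `q` (`hq`, `hm` give `LocallyIntegrable q volume`), with the sets `closedBall z s` as `s → 0` (`Besicovitch.tendsto_filterAt`); `volume (closedBall z s) = π s ^ 2`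
(`Complex.volume_closedBall`); the integral over `ball z s` is at most the one over `closedBall z s`.
-/

set_option autoImplicit false

open Filter Topology Polynomial Metric Set MeasureTheory

namespace Pool.Agent.H84.TE

theorem rleb {q : ℂ → ℂ} (hm : Measurable q)
    (hq : ∀ (x : ℂ) (r : ℝ), ∫⁻ w in ball x r, ‖q w‖ₑ ≠ ⊤) : ∀ᵐ z : ℂ, LebP q z := by
  have hloc : LocallyIntegrable q volume := by
    intro x
    refine ⟨ball x 1, ball_mem_nhds x one_pos, hm.aestronglyMeasurable, ?_⟩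
    exact lt_top_iff_ne_top.2 (hq x 1)
  filter_upwards [(Besicovitch.vitaliFamily (volume : Measure ℂ)).ae_tendsto_lintegral_enorm_sub_div
    hloc] with z hz
  have h1 := hz.comp (Besicovitch.tendsto_filterAt volume z)
  have h2 : Tendsto (fun s : ℝ => ENNReal.ofReal Real.pi *
      ((∫⁻ y in closedBall z s, ‖q y - q z‖ₑ) / volume (closedBall z s))) (𝓝[>] 0) (𝓝 0) := by
    have h3 := ENNReal.Tendsto.const_mul (a := ENNReal.ofReal Real.pi) h1
      (Or.inr ENNReal.ofReal_ne_top)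
    rw [mul_zero] at h3
    exact h3
  unfold LebP
  refine tendsto_of_tendsto_of_tendsto_of_le_of_le' tendsto_const_nhds h2
    (Eventually.of_forall fun s => bot_le) ?_
  filter_upwards [self_mem_nhdsWithin] with s hs
  have hs0 : (0 : ℝ) < s := hs
  have hpi : ENNReal.ofReal Real.pi ≠ 0 := by
    rw [Ne, ENNReal.ofReal_eq_zero]
    exact not_le.2 Real.pi_pos
  have hv : volume (closedBall z s) = ENNReal.ofReal (s ^ 2) * ENNReal.ofReal Real.pi := by
    rw [Complex.volume_closedBall, ← ENNReal.ofReal_pow hs0.le]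
    congr 1
    rw [ENNReal.ofReal_eq_coe_nnreal Real.pi_pos.le]
    rfl
  have hs2 : ENNReal.ofReal (s ^ 2) ≠ 0 := by
    rw [Ne, ENNReal.ofReal_eq_zero]
    exact not_le.2 (by positivity)
  rw [hv, div_eq_mul_inv, div_eq_mul_inv, ENNReal.mul_inv (Or.inl hs2) (Or.inl ENNReal.ofReal_ne_top)]
  have h4 : ENNReal.ofReal Real.pi * ((∫⁻ y in closedBall z s, ‖q y - q z‖ₑ) *
      ((ENNReal.ofReal (s ^ 2))⁻¹ * (ENNReal.ofReal Real.pi)⁻¹)) =
      (∫⁻ y in closedBall z s, ‖q y - q z‖ₑ) * (ENNReal.ofReal (s ^ 2))⁻¹ := by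
    calc ENNReal.ofReal Real.pi * ((∫⁻ y in closedBall z s, ‖q y - q z‖ₑ) *
        ((ENNReal.ofReal (s ^ 2))⁻¹ * (ENNReal.ofReal Real.pi)⁻¹)) =
        (ENNReal.ofReal Real.pi * (ENNReal.ofReal Real.pi)⁻¹) *
        ((∫⁻ y in closedBall z s, ‖q y - q z‖ₑ) * (ENNReal.ofReal (s ^ 2))⁻¹) := by ring
      _ = _ := by rw [ENNReal.mul_inv_cancel hpi ENNReal.ofReal_ne_top, one_mul]
  rw [h4]
  gcongr
  exact ball_subset_closedBall

end Pool.Agent.H84.TE
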