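import Pool.Agent.H84.TE.RDF
import Pool.Agent.H44.DN.NNL

/-!
# Module RLM: the limit of the relations is a relation with a holomorphic function

PROOF. `montel1` (H44/DN/NNL) for `G`: a subsequence converges locally uniformly on `ball y r` (in particular pointwise) to a holomorphic `g`, and `c ≤ ‖g w‖ ≤ C`. Along this subsequence `∫⁻ w in ball y R, ‖F k w - κ‖ₑ → 0`; pass to a further subsequence along which `F k w → κ` for almost every `w ∈ ball y R`
(`MeasureTheory.tendstoInMeasure_of_tendsto_eLpNorm` with `p = 1` and `TendstoInMeasure.exists_seq_tendsto_ae`, measure `volume.restrict (ball y R)`; `eLpNorm_one_eq_lintegral_enorm`). So for almost every `w ∈ ball y r`: `F k w * G k w ^ 2 → κ * g w ^ 2 ≠ 0` along the subsequence, and for every `k` there is `ρ k ≥ 0` with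
`F k w * G k w ^ 2 = ρ k * q w` (`ae_all_iff`). The limit `T = κ * g w ^ 2` is not zero, so `q w ≠ 0` (otherwise all `F k w * G k w ^ 2 = 0`), and `T / q w` is the limit of the `ρ k`, so it is real and `≥ 0` (closed set), and it is not `0`: `T = ρ * q w` with `ρ > 0`, `q w = (1 / ρ) * (κ * g w ^ 2)`. `RHol` with `H w = κ * g w ^ 2`.
-/

set_option autoImplicit false

open Filter Topology Polynomial Metric Set MeasureTheory

namespace Pool.Agent.H84.TE

theorem rlm {q : ℂ → ℂ} {y κ : ℂ} {r R c C : ℝ} (hr : 0 < r) (hrR : r < R) (hc : 0 < c)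
    (hκ : κ ≠ 0) {F G : ℕ → ℂ → ℂ} (hG : ∀ k, DifferentiableOn ℂ (G k) (ball y R))
    (hGc : ∀ k, ∀ w ∈ ball y R, c ≤ ‖G k w‖ ∧ ‖G k w‖ ≤ C)
    (hFm : ∀ k, AEMeasurable (F k) (volume.restrict (ball y R)))
    (hF : Tendsto (fun k => ∫⁻ w in ball y R, ‖F k w - κ‖ₑ) atTop (𝓝 0))
    (hρ : ∀ k, ∀ᵐ w : ℂ, w ∈ ball y R → ∃ ρ : ℝ, 0 ≤ ρ ∧ F k w * G k w ^ 2 = (ρ : ℂ) * q w) :
    RHol q (ball y r) := by
  obtain ⟨σ, g, hσ, hg, hlim⟩ := Pool.Agent.H44.DN.montel1 hr hrR hG (fun k w hw => (hGc k w hw).2)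
  have hsub : ball y r ⊆ ball y R := ball_subset_ball hrR.le
  have hpt : ∀ z ∈ ball y r, Tendsto (fun k => G (σ k) z) atTop (𝓝 (g z)) := by
    intro z hz
    exact (hlim z hz).comp (tendsto_id.prodMk tendsto_const_nhds)
  have hgc : ∀ z ∈ ball y r, c ≤ ‖g z‖ := by
    intro z hz
    exact ge_of_tendsto' (hpt z hz).norm fun k => (hGc (σ k) z (hsub hz)).1
  have hFσ : Tendsto (fun k => ∫⁻ w in ball y R, ‖F (σ k) w - κ‖ₑ) atTop (𝓝 0) := hF.comp hσ.tendsto_atTop
  have hmeas : TendstoInMeasure (volume.restrict (ball y R)) (fun k => F (σ k)) atTop (fun _ => κ) := by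
    refine tendstoInMeasure_of_tendsto_eLpNorm one_ne_zero (fun k => (hFm (σ k)).aestronglyMeasurable)
      aestronglyMeasurable_const ?_
    refine hFσ.congr fun k => ?_
    rw [eLpNorm_one_eq_lintegral_enorm]
    rfl
  obtain ⟨ns, hns, hae⟩ := hmeas.exists_seq_tendsto_ae
  have hae' := (ae_restrict_iff' measurableSet_ball).1 hae
  refine ⟨fun w => κ * g w ^ 2, (hg.pow 2).const_mul κ, ?_, ?_⟩
  · intro w hw
    refine mul_ne_zero hκ (pow_ne_zero 2 ?_)
    exact norm_pos_iff.1 (hc.trans_le (hgc w hw))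
  · filter_upwards [hae', ae_all_iff.2 hρ] with w h1 h2 hw
    have hwR := hsub hw
    have hg0 : g w ≠ 0 := norm_pos_iff.1 (hc.trans_le (hgc w hw))
    have hT0 : κ * g w ^ 2 ≠ 0 := mul_ne_zero hκ (pow_ne_zero 2 hg0)
    have hT : Tendsto (fun i => F (σ (ns i)) w * G (σ (ns i)) w ^ 2) atTop (𝓝 (κ * g w ^ 2)) :=
      (h1 hwR).mul (((hpt w hw).comp hns.tendsto_atTop).pow 2)
    choose ρ hρ0 hρe using fun k => h2 k hwR
    have hq : q w ≠ 0 := by
      intro hq
      have h3 : (fun i => F (σ (ns i)) w * G (σ (ns i)) w ^ 2) = fun _ => (0 : ℂ) := by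
        funext i
        rw [hρe, hq, mul_zero]
      rw [h3] at hT
      exact hT0 (tendsto_nhds_unique hT tendsto_const_nhds)
    have hρT : Tendsto (fun i => ((ρ (σ (ns i)) : ℝ) : ℂ)) atTop (𝓝 (κ * g w ^ 2 / q w)) := by
      refine (hT.div_const (q w)).congr fun i => ?_
      rw [hρe, mul_div_cancel_right₀ _ hq]
    have hre : Tendsto (fun i => ρ (σ (ns i))) atTop (𝓝 (κ * g w ^ 2 / q w).re) := by
      have h4 := (Complex.continuous_re.tendsto _).comp hρT
      refine h4.congr fun i => ?_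
      exact Complex.ofReal_re _
    have him : (κ * g w ^ 2 / q w).im = 0 := by
      have h4 := (Complex.continuous_im.tendsto _).comp hρT
      have h5 : Tendsto (fun _ : ℕ => (0 : ℝ)) atTop (𝓝 (κ * g w ^ 2 / q w).im) := by
        refine h4.congr fun i => ?_
        exact Complex.ofReal_im _
      exact (tendsto_nhds_unique h5 tendsto_const_nhds)
    have hre0 : 0 ≤ (κ * g w ^ 2 / q w).re := ge_of_tendsto' hre fun i => hρ0 _
    have heq : κ * g w ^ 2 / q w = (((κ * g w ^ 2 / q w).re : ℝ) : ℂ) := by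
      refine Complex.ext (by simp) ?_
      rw [him, Complex.ofReal_im]
    have hre1 : 0 < (κ * g w ^ 2 / q w).re := by
      refine lt_of_le_of_ne hre0 fun h6 => ?_
      rw [← h6, Complex.ofReal_zero] at heq
      exact (div_ne_zero hT0 hq) heq
    refine ⟨1 / (κ * g w ^ 2 / q w).re, by positivity, ?_⟩
    have h7 : κ * g w ^ 2 = (((κ * g w ^ 2 / q w).re : ℝ) : ℂ) * q w := by
      rw [← heq, div_mul_cancel₀ _ hq]
    generalize (κ * g w ^ 2 / q w).re = x at *
    show q w = _ * (κ * g w ^ 2)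
    rw [h7]
    have hx : ((x : ℝ) : ℂ) ≠ 0 := by exact_mod_cast hre1.ne'
    push_cast
    field_simp

end Pool.Agent.H84.TE
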