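import Pool.Agent.H84.TE.RAL
import Pool.Agent.H84.TE.RLEB
import Pool.Agent.H84.TE.RLB
import Pool.Agent.H84.TE.RLM

/-!
# Module RLH: real times holomorphic near the limits of a good point

PROOF. Almost every `z` is a Lebesgue point (`rleb`). Let `q z ≠ 0`, `GPt a b δ M z`. Choose recursively `n 0 < n 1 < ..` (`Filter.Frequently`, `ε = 1 / (k + 1)`) with `‖(gg a b)^[n k] z‖ ≤ M` and branches `g k` on `ball (x k) δ`, `x k = (gg a b)^[n k] z`, `g k (x k) = z`, `‖deriv (g k) (x k)‖ ≤ 1 / (k + 1)`. By compactness of `closedBall 0 M`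
pass to a subsequence with `x k → y`, and drop the `k` with `‖x k - y‖ ≥ δ / 8`. `g k` is injective (`(gg a b)^[n k] (g k w) = w`). With `R = δ / 4`, `r = δ / 8`: `ball y R ⊆ ball (x k) (δ / 2)`. `F k w = q (g k w)`, `κ = q z`: `hF` from `rlb`. `l = ‖deriv (g k) (x k)‖ > 0` (`rdn`), `G k w = deriv (g k) w / l`: bounds from `koe`
(H44/DN/KOE, `R = δ`, `ρ = δ / 2`: `c = 1 / (C * 2 ^ N)`, `C * 2 ^ N`), differentiable (`DifferentiableOn.deriv`). `hFm`: `q` is measurable, `g k` is continuous on the ball (`ContinuousOn.aemeasurable`, `measurableSet_ball`, `Measurable.comp_aemeasurable`). `hρ`: `ral` divided by `l ^ 2`. So `rlm`: `RHol q (ball y r)`.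
`φ k = n k` (after the passage to the subsequence), `x k ∈ ball y r` (`‖x k - y‖ < δ / 8`), `Fi a b (n k) z` (the branch at `w = x k`), and `dn a b (n k) z * deriv (g k) (x k) = 1` (`rdn`), so `‖dn a b (n k) z‖ ≥ k + 1` along the subsequence tends to infinity.
-/

set_option autoImplicit false

open Filter Topology Polynomial Metric Set MeasureTheory

namespace Pool.Agent.H84.TE

open Pool.Agent.H44.Fatou Pool.Agent.H61.TT Pool.Agent.H35.EX Pool.Agent.H91.CE Pool.Agent.H91.CS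

theorem rlh {a b : Polynomial ℂ} {q : ℂ → ℂ} (hlf : LF a b q) (hm : Measurable q)
    (hq : ∀ (x : ℂ) (r : ℝ), ∫⁻ w in ball x r, ‖q w‖ₑ ≠ ⊤) {δ : ℝ} (hδ : 0 < δ) (M : ℝ) :
    ∀ᵐ z : ℂ, q z ≠ 0 → GPt a b δ M z → ∃ (y : ℂ) (r : ℝ) (φ : ℕ → ℕ), 0 < r ∧
      StrictMono φ ∧ RHol q (ball y r) ∧
      (∀ k, (gg a b)^[φ k] z ∈ ball y r ∧ Fi a b (φ k) z) ∧
      Tendsto (fun k => ‖dn a b (φ k) z‖) atTop atTop := by
  filter_upwards [rleb hm hq] with z hz hqz hG
  -- the good times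
  obtain ⟨φ0, hφ0, hP⟩ := extraction_forall_of_frequently (P := fun k n : ℕ =>
    ‖(gg a b)^[n] z‖ ≤ M ∧ ∃ g : ℂ → ℂ,
      DifferentiableOn ℂ g (ball ((gg a b)^[n] z) δ) ∧ g ((gg a b)^[n] z) = z ∧
      (∀ w ∈ ball ((gg a b)^[n] z) δ, Fi a b n (g w) ∧ (gg a b)^[n] (g w) = w) ∧
      ‖deriv g ((gg a b)^[n] z)‖ ≤ 1 / ((k : ℝ) + 1)) (fun k => hG _ (by positivity))
  obtain ⟨y, -, ψ, hψ, hlim⟩ := (isCompact_closedBall (0 : ℂ) M).tendsto_subseq
    (x := fun k => (gg a b)^[φ0 k] z) (fun k => mem_closedBall_zero_iff.2 (hP k).1)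
  have hev : ∀ᶠ k in atTop, (gg a b)^[φ0 (ψ k)] z ∈ ball y (δ / 8) :=
    hlim.eventually (ball_mem_nhds y (by positivity))
  obtain ⟨N, hN⟩ := eventually_atTop.1 hev
  obtain ⟨n, hn⟩ : ∃ n : ℕ → ℕ, ∀ k, n k = φ0 (ψ (k + N)) := ⟨_, fun _ => rfl⟩
  have hnm : StrictMono n := by
    intro i j hij
    rw [hn, hn]
    exact hφ0 (hψ (by omega))
  have hdat : ∀ k, ∃ g : ℂ → ℂ,
      DifferentiableOn ℂ g (ball ((gg a b)^[n k] z) δ) ∧ g ((gg a b)^[n k] z) = z ∧
      (∀ w ∈ ball ((gg a b)^[n k] z) δ, Fi a b (n k) (g w) ∧ (gg a b)^[n k] (g w) = w) ∧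
      ‖deriv g ((gg a b)^[n k] z)‖ ≤ 1 / ((k : ℝ) + 1) := by
    intro k
    rw [hn]
    obtain ⟨g, h1, h2, h3, h4⟩ := (hP (ψ (k + N))).2
    refine ⟨g, h1, h2, h3, h4.trans ?_⟩
    apply one_div_le_one_div_of_le (by positivity)
    have h5 : k + N ≤ ψ (k + N) := hψ.id_le _
    have h6 : (k : ℝ) ≤ (ψ (k + N) : ℝ) := by exact_mod_cast (by omega : k ≤ ψ (k + N))
    linarith
  choose g hgd hgx hgi hgl using hdat
  obtain ⟨X, hX⟩ : ∃ X : ℕ → ℂ, ∀ k, X k = (gg a b)^[n k] z := ⟨_, fun _ => rfl⟩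
  simp only [← hX] at hgd hgx hgi hgl
  have hXy : ∀ k, X k ∈ ball y (δ / 8) := by
    intro k
    rw [hX, hn]
    exact hN _ (by omega)
  have hXm : ∀ k, X k ∈ ball (X k) δ := fun k => mem_ball_self hδ
  have hinj : ∀ k, InjOn (g k) (ball (X k) δ) := by
    intro k u hu v hv huv
    rw [← (hgi k u hu).2, huv, (hgi k v hv).2]
  have hd1 : ∀ k, dn a b (n k) z * deriv (g k) (X k) = 1 := by
    intro k
    have := rdn isOpen_ball (hgd k) (fun w hw => (hgi k w hw).1) (fun w hw => (hgi k w hw).2)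
      (hXm k)
    rwa [hgx k] at this
  have hl : ∀ k, 0 < ‖deriv (g k) (X k)‖ := by
    intro k
    rw [norm_pos_iff]
    intro h0
    have := hd1 k
    rw [h0, mul_zero] at this
    exact zero_ne_one this
  have hl0 : Tendsto (fun k => ‖deriv (g k) (X k)‖) atTop (𝓝 0) :=
    squeeze_zero (fun k => norm_nonneg _) hgl tendsto_one_div_add_atTop_nhds_zero_nat
  have hsub : ∀ k, ball y (δ / 4) ⊆ ball (X k) (δ / 2) := by
    intro k w hw
    have h1 := hXy k
    rw [mem_ball] at hw h1 ⊢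
    calc dist w (X k) ≤ dist w y + dist y (X k) := dist_triangle _ _ _
      _ < δ / 2 := by rw [dist_comm y]; linarith
  have hsub2 : ∀ k, ball (X k) (δ / 2) ⊆ ball (X k) δ := fun k => ball_subset_ball (by linarith)
  -- mean convergence
  have hF := rlb hz hδ hgd hinj hgx hl0
  have hF2 : Tendsto (fun k => ∫⁻ w in ball y (δ / 4), ‖q (g k w) - q z‖ₑ) atTop (𝓝 0) :=
    tendsto_of_tendsto_of_tendsto_of_le_of_le tendsto_const_nhds hF (fun k => zero_le)
      (fun k => lintegral_mono_set (hsub k))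
  -- distortion
  obtain ⟨C, K, hC, hkoe⟩ := Pool.Agent.H44.DN.koe
  have hbd : ∀ k, ∀ w ∈ ball y (δ / 4),
      (1 / 2 : ℝ) ^ K / C ≤ ‖deriv (g k) w / (‖deriv (g k) (X k)‖ : ℂ)‖ ∧
      ‖deriv (g k) w / (‖deriv (g k) (X k)‖ : ℂ)‖ ≤ C / (1 / 2 : ℝ) ^ K := by
    intro k w hw
    have hw2 : w ∈ closedBall (X k) (δ / 2) := ball_subset_closedBall (hsub k hw)
    obtain ⟨h1, h2, -, -⟩ := hkoe (g k) (X k) δ hδ (hgd k) (hinj k) (δ / 2) (by positivity)
      (by linarith) w hw2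
    have e : 1 - δ / 2 / δ = 1 / 2 := by
      field_simp
      norm_num
    rw [e] at h1 h2
    have h3 : 0 < (1 / 2 : ℝ) ^ K := by positivity
    have h4 := hl k
    have h5 : ‖deriv (g k) w / (‖deriv (g k) (X k)‖ : ℂ)‖ =
        ‖deriv (g k) w‖ / ‖deriv (g k) (X k)‖ := by
      rw [norm_div, Complex.norm_real, norm_norm]
    rw [h5]
    constructor
    · rw [div_le_div_iff₀ (by linarith) h4]
      nlinarith
    · rw [div_le_div_iff₀ h4 h3]
      nlinarith
  have hRH : RHol q (ball y (δ / 8)) := by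
    refine rlm (F := fun k w => q (g k w))
      (G := fun k w => deriv (g k) w / (‖deriv (g k) (X k)‖ : ℂ)) (R := δ / 4)
      (c := (1 / 2 : ℝ) ^ K / C) (C := C / (1 / 2 : ℝ) ^ K) (by positivity) (by linarith)
      (by positivity) hqz ?_ hbd ?_ hF2 ?_
    · intro k
      refine DifferentiableOn.div_const ?_ _
      exact ((hgd k).deriv isOpen_ball).mono ((hsub k).trans (hsub2 k))
    · intro k
      refine hm.comp_aemeasurable ?_
      exact (((hgd k).continuousOn.mono ((hsub k).trans (hsub2 k))).aemeasurable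
        measurableSet_ball)
    · intro k
      filter_upwards [ral hlf isOpen_ball (hgd k) (fun w hw => (hgi k w hw).1)
        (fun w hw => (hgi k w hw).2)] with w hw hwb
      obtain ⟨ρ, hρ, hρe⟩ := hw (hsub2 k (hsub k hwb))
      have h4 := hl k
      refine ⟨ρ / ‖deriv (g k) (X k)‖ ^ 2, by positivity, ?_⟩
      have h5 : (‖deriv (g k) (X k)‖ : ℂ) ≠ 0 := by
        exact_mod_cast h4.ne'
      show q (g k w) * (deriv (g k) w / (‖deriv (g k) (X k)‖ : ℂ)) ^ 2 = _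
      rw [div_pow, ← mul_div_assoc, hρe]
      push_cast
      field_simp
  refine ⟨y, δ / 8, n, by positivity, hnm, hRH, fun k => ⟨?_, ?_⟩, ?_⟩
  · rw [← hX]
    exact hXy k
  · have := (hgi k (X k) (hXm k)).1
    rwa [hgx k] at this
  · have h1 : ∀ k : ℕ, ((k : ℝ) + 1) ≤ ‖dn a b (n k) z‖ := by
      intro k
      have h2 : ‖dn a b (n k) z‖ * ‖deriv (g k) (X k)‖ = 1 := by
        rw [← norm_mul, hd1, norm_one]
      have h3 := hgl k
      have h4 := hl k
      have h5 : (0 : ℝ) < (k : ℝ) + 1 := by positivity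
      rw [le_div_iff₀ h5] at h3
      by_contra hcon
      push Not at hcon
      nlinarith
    refine tendsto_atTop_mono h1 ?_
    exact tendsto_atTop_add_const_right _ _ tendsto_natCast_atTop_atTop

end Pool.Agent.H84.TE
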