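import Pool.Agent.H91.Fatou.Crit
import Pool.Agent.H32.BT.Crit

/-!
# Module RPC: a point which is the only preimage of its image is critical

PROOF. `exists_chart v` (H91/Fatou/Mob): `α, β, γ, δ` with `α δ - β γ ≠ 0`, `ch α β γ δ` an open embedding, `ch α β γ δ 0 = v`. `p = lin α β γ δ (dg P Q) P`, `q = lin .. Q` (`lin_eval`): `rat P Q (ch .. t) = pt (p t) (q t)` (`rat_pt`, `ch_ne`), `(p t, q t) ≠ (0, 0)` (`hom_ne`). `(x0, y0) = (p 0, q 0)`, `T = C y0 * p - C x0 * q`, of degree at most `D = dg P Q ≥ 2`,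
`T 0 = 0`. If `T t = 0` then `pt (p t) (q t) = pt x0 y0` (`pt_eq_pt`, H91/Fatou/Crit), so `ch t = v = ch 0` by `hv` and `t = 0` (injective). So `0` is the only root of `T`. The coefficient of `X ^ D` of `T`: `lin` at the point `ch ∞ = pt α γ`: the coefficient of `t ^ D` of `p` is `hom D P α γ` (leading coefficient in `t` of `hom D P (α t + β) (γ t + δ)`), the same for `q`. If the
coefficient of `T` were `0`, then `rat P Q (pt α γ) = pt (hom D P α γ) (hom D Q α γ) = pt x0 y0 = rat P Q v`, so `pt α γ = v = pt β δ`, against `α δ - β γ ≠ 0`. So `T` has degree `D`, and since `ℂ` is algebraically closed and `0` is the only root, `T = C κ * X ^ D` (`T.roots = replicate D 0`), so `T'(0) = 0` because `D ≥ 2`. `Wr p q` at `0` is `p' q - p q'`; multiplied by `y0` it is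
`(T' + x0 q') q0 - y0 p0 q'` at `0` `= 0 + x0 q'(0) y0 - y0 x0 q'(0) = 0`, multiplied by `x0` likewise; one of `x0, y0` is not zero, so `(Wr p q).eval 0 = 0`, and `crit_of_wr` (H91/Fatou/Crit) with `t = 0`.
(Alternatively the three cases `v` finite with finite value, `v` finite with value `∞`, `v = ∞`, with `crit_of_wr`, `crit_infty_of_wr` of H32/BT/Crit.)
-/

set_option autoImplicit false

open Filter Topology Polynomial Metric Set

namespace Pool.Agent.H84.TE

open Pool.Agent.H44.Fatou Pool.Agent.H32.BT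

private theorem lin_deg (α β γ δ : ℂ) (d : ℕ) (P : Polynomial ℂ) :
    (H91.Fatou.lin α β γ δ d P).natDegree ≤ d ∧
      (H91.Fatou.lin α β γ δ d P).coeff d = H91.Fatou.hom d P α γ := by
  have h1 : ∀ α β : ℂ, (C α * X + C β : Polynomial ℂ).natDegree ≤ 1 := fun α β =>
    natDegree_linear_le
  have h2 : ∀ (α β : ℂ) (k : ℕ), ((C α * X + C β : Polynomial ℂ) ^ k).natDegree ≤ k := by
    intro α β k
    have := natDegree_pow_le_of_le k (h1 α β)
    rwa [mul_one] at this
  have h3 : ∀ (α β : ℂ) (k : ℕ), ((C α * X + C β : Polynomial ℂ) ^ k).coeff k = α ^ k := by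
    intro α β k
    have := coeff_pow_of_natDegree_le (m := k) (h1 α β)
    rw [mul_one] at this
    rw [this]
    simp
  constructor
  · unfold H91.Fatou.lin
    apply natDegree_sum_le_of_forall_le
    intro i hi
    rw [Finset.mem_range] at hi
    have h4 := natDegree_mul_le_of_le (h2 α β i) (h2 γ δ (d - i))
    have h5 : i + (d - i) = d := by omega
    rw [h5] at h4
    exact (natDegree_C_mul_le _ _).trans h4
  · unfold H91.Fatou.lin H91.Fatou.hom
    rw [finset_sum_coeff]
    apply Finset.sum_congr rfl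
    intro i hi
    rw [Finset.mem_range] at hi
    have h4 := coeff_mul_add_eq_of_natDegree_le (h2 α β i) (h2 γ δ (d - i))
    have h5 : i + (d - i) = d := by omega
    rw [h5] at h4
    rw [coeff_C_mul, h4, h3, h3]
    ring

theorem crit_of_only {P Q : Polynomial ℂ} (h : IsCoprime P Q)
    (hd : 2 ≤ max P.natDegree Q.natDegree) {v : OnePoint ℂ}
    (hv : ∀ w, rat P Q w = rat P Q v → w = v) : IsCrit (rat P Q) v := by
  obtain ⟨α, β, γ, δ, hd', ho, h0⟩ := H91.Fatou.exists_chart v
  obtain ⟨D, hD⟩ : ∃ D, D = dg P Q := ⟨_, rfl⟩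
  have hD2 : 2 ≤ D := by rw [hD]; exact hd
  obtain ⟨p, hp⟩ : ∃ p, p = H91.Fatou.lin α β γ δ (dg P Q) P := ⟨_, rfl⟩
  obtain ⟨q, hq⟩ : ∃ q, q = H91.Fatou.lin α β γ δ (dg P Q) Q := ⟨_, rfl⟩
  have hpq : ∀ s, rat P Q (H91.Fatou.ch α β γ δ s) = pt (p.eval s) (q.eval s) := by
    intro s
    unfold H91.Fatou.ch
    rw [H91.Fatou.rat_pt (H91.Fatou.ch_ne hd' s), hp, hq, H91.Fatou.lin_eval, H91.Fatou.lin_eval]
  have hne : ∀ s, p.eval s ≠ 0 ∨ q.eval s ≠ 0 := by
    intro s
    rw [hp, hq, H91.Fatou.lin_eval, H91.Fatou.lin_eval]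
    exact H91.Fatou.hom_ne h (H91.Fatou.ch_ne hd' s)
  have hv0 : rat P Q v = pt (p.eval 0) (q.eval 0) := by rw [← h0, hpq]
  obtain ⟨T, hT⟩ : ∃ T, T = C (q.eval 0) * p - C (p.eval 0) * q := ⟨_, rfl⟩
  have hTe : ∀ t, T.eval t = q.eval 0 * p.eval t - p.eval 0 * q.eval t := by
    intro t
    rw [hT, eval_sub, eval_mul, eval_mul, eval_C, eval_C]
  have hT0 : T.eval 0 = 0 := by rw [hTe]; ring
  have hroot : ∀ t, T.eval t = 0 → t = 0 := by
    intro t ht
    rw [hTe] at ht
    have h1 : rat P Q (H91.Fatou.ch α β γ δ t) = rat P Q v := by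
      rw [hpq, hv0]
      exact H91.Fatou.pt_eq_pt (hne t) (hne 0) (by linear_combination ht)
    have h2 := hv _ h1
    rw [← h0] at h2
    exact ho.injective h2
  have hTd : T.natDegree ≤ D := by
    rw [hT, hD, hp, hq]
    refine (natDegree_sub_le _ _).trans (max_le ?_ ?_)
    · exact (natDegree_C_mul_le _ _).trans (lin_deg α β γ δ (dg P Q) P).1
    · exact (natDegree_C_mul_le _ _).trans (lin_deg α β γ δ (dg P Q) Q).1
  have hαγ : α ≠ 0 ∨ γ ≠ 0 := by
    by_contra hcon
    push Not at hcon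
    apply hd'
    rw [hcon.1, hcon.2]
    ring
  have hTc : T.coeff D ≠ 0 := by
    intro hc
    have h1 : T.coeff D = q.eval 0 * H91.Fatou.hom (dg P Q) P α γ -
        p.eval 0 * H91.Fatou.hom (dg P Q) Q α γ := by
      have e1 : p.coeff D = H91.Fatou.hom (dg P Q) P α γ := by
        rw [hp, hD]
        exact (lin_deg α β γ δ (dg P Q) P).2
      have e2 : q.coeff D = H91.Fatou.hom (dg P Q) Q α γ := by
        rw [hq, hD]
        exact (lin_deg α β γ δ (dg P Q) Q).2
      rw [hT, coeff_sub, coeff_C_mul, coeff_C_mul, e1, e2]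
    rw [hc] at h1
    have h2 : rat P Q (pt α γ) = rat P Q v := by
      rw [H91.Fatou.rat_pt hαγ, hv0]
      exact H91.Fatou.pt_eq_pt (H91.Fatou.hom_ne h hαγ) (hne 0) (by linear_combination -h1)
    have h3 := hv _ h2
    rw [← h0] at h3
    unfold H91.Fatou.ch at h3
    have h4 := pt_eq h3
    apply hd'
    linear_combination h4
  have hTn : T.natDegree = D := le_antisymm hTd (le_natDegree_of_ne_zero hTc)
  have hX : X ∣ T := by
    rw [X_dvd_iff, coeff_zero_eq_eval_zero]
    exact hT0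
  obtain ⟨S, hS⟩ := hX
  have hS0 : S ≠ 0 := by
    rintro rfl
    rw [mul_zero] at hS
    rw [hS] at hTc
    exact hTc (coeff_zero D)
  have hSd : S.natDegree + 1 = D := by
    rw [← hTn, hS, natDegree_X_mul hS0]
  have hSdeg : S.degree ≠ 0 := by
    rw [degree_eq_natDegree hS0]
    intro h1
    have h2 : S.natDegree = 0 := by exact_mod_cast h1
    omega
  obtain ⟨t, ht⟩ := IsAlgClosed.exists_root S hSdeg
  have ht' : S.eval t = 0 := ht
  have ht0 : t = 0 := by
    apply hroot
    rw [hS, eval_mul, ht', mul_zero]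
  rw [ht0] at ht'
  have hTder : (derivative T).eval 0 = 0 := by
    rw [hS, derivative_mul, derivative_X, eval_add, eval_mul, eval_mul, eval_one, eval_X, ht']
    ring
  have hW : (Wr p q).eval 0 = 0 := by
    rw [hT, derivative_sub, derivative_C_mul, derivative_C_mul, eval_sub, eval_mul, eval_mul,
      eval_C, eval_C] at hTder
    unfold Wr
    rw [eval_sub, eval_mul, eval_mul]
    linear_combination hTder
  rw [hp, hq] at hW
  have h4 := H91.Fatou.crit_of_wr hd' ho h hW
  rwa [h0] at h4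

end Pool.Agent.H84.TE
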