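import Pool.Agent.H84.TE.RAL

/-!
# Module RPU: push forward of real times holomorphic

PROOF. `F = (gg a b)^[n]` is differentiable near `w` (`it_deriv`, H79/MZ/ALI, at all points `w'` with `Fi a b n w'`; `Fi` is an open condition: the iterates are continuous at `w` and `b` is continuous, induction on `n`; so `F` is analytic at `w`, `DifferentiableOn.analyticAt`) with derivative `dn a b n w ≠ 0` at `w`, so it has a strict derivative there
(`AnalyticAt.hasStrictDerivAt`) and a local inverse `g` (`HasStrictDerivAt.localInverse`, `HasStrictDerivAt.eventually_right_inverse`, ..; or: `F` is injective near `w` and open; take the inverse function on the image; `HasStrictDerivAt.to_localInverse` at every nearby point, or `ContDiffAt.toOpenPartialHomeomorph` with `ContDiffAt.to_localInverse` over `ℂ`): there is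
`ρ > 0` and `g` differentiable on `ball x ρ`, `x = F w`, with `F (g z) = z`, `g z ∈ D`, `Fi a b n (g z)` there. By `ral` almost every `z ∈ ball x ρ` satisfies `q (g z) * deriv g z ^ 2 = l * q z`, `l ≥ 0`, by `rnul` and `RHol q D` also `q (g z) = R * H (g z)`, `R > 0`, `H (g z) ≠ 0`; `deriv g z ≠ 0` (`rdn`). So `l * q z = R * H (g z) * deriv g z ^ 2 ≠ 0`, `l > 0`:
`q z = (R / l) * (H (g z) * deriv g z ^ 2)`.
-/

set_option autoImplicit false

open Filter Topology Polynomial Metric Set MeasureTheory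

namespace Pool.Agent.H84.TE

open Pool.Agent.H44.Fatou Pool.Agent.H61.TT Pool.Agent.H35.EX Pool.Agent.H91.CE Pool.Agent.H91.CS

private theorem fi_open' {a b : Polynomial ℂ} {n : ℕ} {z : ℂ} (h : Fi a b n z) : ∀ᶠ w in 𝓝 z, Fi a b n w := by
  have h1 : ∀ i ∈ Finset.range n, ∀ᶠ w in 𝓝 z, b.eval ((gg a b)^[i] w) ≠ 0 := by
    intro i hi
    have hi' := Finset.mem_range.1 hi
    have h2 : ContinuousAt ((gg a b)^[i]) z :=
      (Pool.Agent.H79.MZ.it_deriv i z fun j hj => h j (by omega)).continuousAt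
    have h3 : ContinuousAt (fun w => b.eval ((gg a b)^[i] w)) z := b.continuous.continuousAt.comp h2
    exact h3.eventually_ne (h i hi')
  rw [← Filter.eventually_all_finset] at h1
  filter_upwards [h1] with w hw i hi
  exact hw i (Finset.mem_range.2 hi)

theorem rpush {a b : Polynomial ℂ} {q : ℂ → ℂ} (hlf : LF a b q) {D : Set ℂ} (hD : IsOpen D)
    (hr : RHol q D) {w : ℂ} (hw : w ∈ D) {n : ℕ} (hf : Fi a b n w) (hn : dn a b n w ≠ 0) :
    ∃ ρ : ℝ, 0 < ρ ∧ RHol q (ball ((gg a b)^[n] w) ρ) := by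
  obtain ⟨H, hH, hH0, hHq⟩ := hr
  have hder : ∀ z, Fi a b n z → HasDerivAt ((gg a b)^[n]) (dn a b n z) z := fun z hz =>
    Pool.Agent.H79.MZ.it_deriv n z hz
  have han : AnalyticAt ℂ ((gg a b)^[n]) w := by
    refine DifferentiableOn.analyticAt (s := {z | Fi a b n z}) ?_ (fi_open' hf)
    intro z hz
    exact (hder z hz).differentiableAt.differentiableWithinAt
  have hn' : deriv ((gg a b)^[n]) w ≠ 0 := by rw [(hder w hf).deriv]; exact hn
  obtain ⟨g, hg⟩ : ∃ g : ℂ → ℂ, g = han.hasStrictDerivAt.localInverse _ _ _ hn' := ⟨_, rfl⟩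
  have hga : AnalyticAt ℂ g ((gg a b)^[n] w) := by
    rw [hg]
    exact han.analyticAt_localInverse hn'
  have hgw : g ((gg a b)^[n] w) = w := by
    rw [hg]
    exact HasStrictFDerivAt.localInverse_apply_image ..
  have hgr : ∀ᶠ z in 𝓝 ((gg a b)^[n] w), (gg a b)^[n] (g z) = z := by
    rw [hg]
    exact HasStrictDerivAt.eventually_right_inverse ..
  have hgD : ∀ᶠ z in 𝓝 ((gg a b)^[n] w), g z ∈ D := by
    have h1 := hga.continuousAt
    unfold ContinuousAt at h1
    rw [hgw] at h1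
    exact h1.eventually (hD.mem_nhds hw)
  have hgF : ∀ᶠ z in 𝓝 ((gg a b)^[n] w), Fi a b n (g z) := by
    have h1 := hga.continuousAt
    unfold ContinuousAt at h1
    rw [hgw] at h1
    exact h1.eventually (fi_open' hf)
  have hall := ((hga.eventually_analyticAt.and hgr).and (hgD.and hgF))
  obtain ⟨ρ, hρ, hball⟩ := Metric.eventually_nhds_iff_ball.1 hall
  have hgd : DifferentiableOn ℂ g (ball ((gg a b)^[n] w) ρ) := fun z hz =>
    (hball z hz).1.1.differentiableAt.differentiableWithinAt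
  have hgi : ∀ z ∈ ball ((gg a b)^[n] w) ρ, (gg a b)^[n] (g z) = z := fun z hz => (hball z hz).1.2
  have hgD' : ∀ z ∈ ball ((gg a b)^[n] w) ρ, g z ∈ D := fun z hz => (hball z hz).2.1
  have hgF' : ∀ z ∈ ball ((gg a b)^[n] w) ρ, Fi a b n (g z) := fun z hz => (hball z hz).2.2
  have hdg : ∀ z ∈ ball ((gg a b)^[n] w) ρ, deriv g z ≠ 0 := fun z hz =>
    right_ne_zero_of_mul_eq_one (rdn isOpen_ball hgd hgF' hgi hz)
  refine ⟨ρ, hρ, fun z => H (g z) * deriv g z ^ 2, ?_, ?_, ?_⟩
  · exact (hH.comp hgd hgD').mul ((hgd.deriv isOpen_ball).pow 2)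
  · intro z hz
    exact mul_ne_zero (hH0 _ (hgD' z hz)) (pow_ne_zero 2 (hdg z hz))
  · have hN := rnul hgF' hgi (N := {z | ¬ (z ∈ D → ∃ R : ℝ, 0 < R ∧ q z = (R : ℂ) * H z)}) hHq
    filter_upwards [ral hlf isOpen_ball hgd hgF' hgi, hN] with z h1 h2 hz
    obtain ⟨l, hl0, hl⟩ := h1 hz
    have h3 := h2 hz
    rw [not_not] at h3
    obtain ⟨R, hR, hRq⟩ := h3 (hgD' z hz)
    have hne : (R : ℂ) * H (g z) * deriv g z ^ 2 ≠ 0 :=
      mul_ne_zero (mul_ne_zero (by exact_mod_cast hR.ne') (hH0 _ (hgD' z hz))) (pow_ne_zero 2 (hdg z hz))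
    rw [hRq] at hl
    have hl1 : l ≠ 0 := by
      rintro rfl
      rw [Complex.ofReal_zero, zero_mul] at hl
      exact hne hl
    have hlp : 0 < l := lt_of_le_of_ne hl0 (Ne.symm hl1)
    refine ⟨R / l, by positivity, ?_⟩
    have hlc : (l : ℂ) ≠ 0 := by exact_mod_cast hl1
    show q z = ((R / l : ℝ) : ℂ) * (H (g z) * deriv g z ^ 2)
    push_cast
    field_simp
    linear_combination -hl

end Pool.Agent.H84.TE
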